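import Pool.Agent.helper48.PR.Base

/-!
# Project pr (MP_a2a22c_al), part L: lattices, density, rational form, faithfulness, assembly

A module XX proves `theorem XX (hYY : YY_stmt) ... : XX_stmt` (hypotheses: `TR_stmt`, `CL_stmt`,
`CSP_stmt`, `TRACE_stmt`, `NIL_stmt` of `Defs.lean` and EARLIER statements of this file) in the file
`Pool/Agent/<seat>/PR/XX.lean`, namespace `Pool.Agent.PR`, auxiliary lemmas with the prefix `XX_`.

`Λ` is a group with `QuotLe Λ (SLZ n)`: every finite quotient of `Λ` is a quotient of `SL(n, ℤ)`.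
`Fam n Λ` is a family of homomorphisms `Λ → GL(n, ℤ_q)`, one for each prime `q`.
-/

set_option autoImplicit false

namespace Pool.Agent.PR

open Matrix

instance primesFact (q : Nat.Primes) : Fact (q : ℕ).Prime := ⟨q.2⟩

/-- entrywise congruence modulo `m` -/
def MC {n : ℕ} {R : Type} [CommRing R] (m : ℕ) (A B : Matrix (Fin n) (Fin n) R) : Prop :=
  ∀ i j, (m : R) ∣ A i j - B i j

/-- a homomorphism to `GL(n, ℤ_q)` for every prime `q` -/
abbrev Fam (n : ℕ) (Λ : Type) [Group Λ] : Type := (q : Nat.Primes) → Λ →* GL (Fin n) ℤ_[(q : ℕ)]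

/-- the matrix over `ℚ_q` of an element of `GL(n, ℤ_q)` -/
noncomputable def qM {n q : ℕ} [Fact q.Prime] (A : GL (Fin n) ℤ_[q]) : Matrix (Fin n) (Fin n) ℚ_[q] :=
  (A : Matrix (Fin n) (Fin n) ℤ_[q]).map (PadicInt.Coe.ringHom (p := q))

/-- residually finite -/
def RF (Λ : Type) [Group Λ] : Prop := ∀ g : Λ, g ≠ 1 → ∃ H : Subgroup Λ, H.index ≠ 0 ∧ g ∉ H

/-- standard or dual representation -/
def sdM {n : ℕ} (s : Bool) (F : Type) [CommRing F] (γ : SLZ n) : Matrix (Fin n) (Fin n) F :=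
  if s then stdM F γ else duM F γ

/-- LTOP. `GL(n, ℤ_q)` is profinite and congruence classes are open. (`Units.embedProduct` is a closed
embedding into `M × Mᵐᵒᵖ`, the image is `{(a, b) | a b = 1 = b a}`; `Matrix` is a finite product of copies of
`ℤ_q`. Divisibility by `m` in `ℤ_q` is a condition on the norm, `m ∣ x ↔ ‖x‖ ≤ ‖m‖`, so the set is clopen.) -/
def LTOP_stmt : Prop :=
  ∀ (n q : ℕ) [Fact q.Prime], CompactSpace (GL (Fin n) ℤ_[q]) ∧
    TotallyDisconnectedSpace (GL (Fin n) ℤ_[q]) ∧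
    ∀ (m : ℕ), m ≠ 0 → ∀ B : GL (Fin n) ℤ_[q],
      IsOpen {A : GL (Fin n) ℤ_[q] | MC m (A : Matrix (Fin n) (Fin n) ℤ_[q]) B}

/-- LTRP. Transfer for a finite quotient and a family. Proof (TR, LTOP, `FG (SLZ n)` from `el_gen`). Apply TR to
`P = Q × ∀ q : Nat.Primes, GL (Fin n) ℤ_[q]` (`Q` with the discrete topology) and `f l = (π l, fun q => f q l)`.
For `m ≠ 0` the set of all `(x, A)` with `x = x₀` and `MC m (A q) (B q)` for all `q` is open: for `q` not
dividing `m` the condition is empty since `m` is a unit of `ℤ_q`, so it is a finite intersection. As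
`f l` lies in the closure of the range of `g` this set (around `f l`) meets the range of `g`; and conversely. -/
def LTRP_stmt : Prop :=
  ∀ (n : ℕ), 3 ≤ n → ∀ (Λ : Type) [Group Λ], QuotLe Λ (SLZ n) →
    ∀ (Q : Type) [Group Q] [Finite Q] (π : Λ →* Q) (f : Fam n Λ),
    ∃ (π' : SLZ n →* Q) (g : Fam n (SLZ n)),
      (∀ m : ℕ, m ≠ 0 → ∀ l : Λ, ∃ γ : SLZ n, π' γ = π l ∧
        ∀ q : Nat.Primes, MC m (f q l : Matrix (Fin n) (Fin n) ℤ_[(q : ℕ)]) (g q γ)) ∧
      (∀ m : ℕ, m ≠ 0 → ∀ γ : SLZ n, ∃ l : Λ, π l = π' γ ∧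
        ∀ q : Nat.Primes, MC m (g q γ : Matrix (Fin n) (Fin n) ℤ_[(q : ℕ)]) (f q l))

/-- LINF. If `f` is approximated by `g` and has infinite range then so has `g`. (If the range of `g` is
finite, then for every `l` some fixed `B` in it is `≡ f l` modulo `q ^ k` for infinitely many `k`, so `f l = B`
and the range of `f` is contained in the range of `g`.) -/
def LINF_stmt : Prop :=
  ∀ (n q : ℕ) [Fact q.Prime] (Λ Γ : Type) [Group Λ] [Group Γ] (f : Λ →* GL (Fin n) ℤ_[q])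
    (g : Γ →* GL (Fin n) ℤ_[q]),
    (∀ m : ℕ, m ≠ 0 → ∀ l : Λ, ∃ γ : Γ, MC m (f l : Matrix (Fin n) (Fin n) ℤ_[q]) (g γ)) →
    (Set.range f).Infinite → (Set.range g).Infinite

/-- LLAT. Proof. `y` is invertible, so it has an entry `c = y a b` of maximal norm, `c ≠ 0`; replace `x`, `y` by
`c • x`, `c⁻¹ • y`: now `y` is integral and `y a b = 1`. For `i ≠ a`: `x E_ia y` is integral and its entry
`(k, b)` is `x k i * y a b = x k i`. For `i = a` choose `j ≠ a`:
`(x E_aj y) (x E_ja y) = x E_aa y` is integral, its entry `(k, b)` is `x k a`. -/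
def LLAT_stmt : Prop :=
  ∀ (n : ℕ), 3 ≤ n → ∀ (q : ℕ) [Fact q.Prime] (x y : Matrix (Fin n) (Fin n) ℚ_[q]), x * y = 1 →
    y * x = 1 →
    (∀ i j : Fin n, i ≠ j → ∃ Z : Matrix (Fin n) (Fin n) ℤ_[q],
      x * Matrix.single i j 1 * y = Z.map (PadicInt.Coe.ringHom (p := q))) →
    ∃ (c : ℚ_[q]) (X Y : Matrix (Fin n) (Fin n) ℤ_[q]), c ≠ 0 ∧ X * Y = 1 ∧ Y * X = 1 ∧
      X.map (PadicInt.Coe.ringHom (p := q)) = c • x ∧ Y.map (PadicInt.Coe.ringHom (p := q)) = c⁻¹ • y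

/-- LCZ. Homomorphisms `SL(n, ℤ) → GL(n, ℤ_q)` (CL over `ℚ_q` for `γ ↦ qM (g γ)`, which has infinite range since
`qM` is injective; `x * (stdM (el i j 1) - 1) * y = x * E_ij * y` is integral, in the dual case
`1 - duM (el i j 1) = E_ji`; LLAT; the equation over `ℚ_q` gives the one over `ℤ_q`). -/
def LCZ_stmt : Prop :=
  ∀ (n : ℕ), 3 ≤ n → ∀ (q : ℕ) [Fact q.Prime] (g : SLZ n →* GL (Fin n) ℤ_[q]),
    (Set.range g).Infinite → ∃ (X Y : Matrix (Fin n) (Fin n) ℤ_[q]) (s : Bool), X * Y = 1 ∧ Y * X = 1 ∧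
      ∀ γ, (g γ : Matrix (Fin n) (Fin n) ℤ_[q]) = X * sdM s ℤ_[q] γ * Y

/-- LSA. Strong approximation for `SL(n)`. Proof by induction on `n`. `n ≤ 1` is clear. For `n ≥ 2` the first
column `v` of `A` is unimodular modulo `m` (an entry combination gives `det A ≡ 1`), so (see
`coprime_shift`, `shift_unimod` in `SLn/Index.lean`) there is `v' ≡ v` modulo `m` with coprime entries and
(`euclid`, `SLn/Gen.lean`) `g` in `SL(n, ℤ)` with first column `v'`. The first column of `g⁻¹ A` is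
`≡ e_0`; clear the first row by column operations modulo `m`; the remaining block of size `n - 1` has
determinant `≡ 1`: induction. -/
def LSA_stmt : Prop :=
  ∀ (n m : ℕ), m ≠ 0 → ∀ A : Matrix (Fin n) (Fin n) ℤ, (m : ℤ) ∣ A.det - 1 →
    ∃ γ : SLZ n, MC m (γ : Matrix (Fin n) (Fin n) ℤ) A

/-- LGG. LTRP, LINF (for each `q`), LCZ combined. -/
def LGG_stmt : Prop :=
  ∀ (n : ℕ), 3 ≤ n → ∀ (Λ : Type) [Group Λ], QuotLe Λ (SLZ n) →
    ∀ (Q : Type) [Group Q] [Finite Q] (π : Λ →* Q) (f : Fam n Λ), (∀ q, (Set.range (f q)).Infinite) →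
    ∃ (π' : SLZ n →* Q) (X Y : (q : Nat.Primes) → Matrix (Fin n) (Fin n) ℤ_[(q : ℕ)])
      (s : Nat.Primes → Bool), (∀ q, X q * Y q = 1 ∧ Y q * X q = 1) ∧
      (∀ m : ℕ, m ≠ 0 → ∀ l : Λ, ∃ γ : SLZ n, π' γ = π l ∧
        ∀ q : Nat.Primes, MC m (f q l : Matrix (Fin n) (Fin n) ℤ_[(q : ℕ)]) (X q * sdM (s q) _ γ * Y q)) ∧
      (∀ m : ℕ, m ≠ 0 → ∀ γ : SLZ n, ∃ l : Λ, π l = π' γ ∧
        ∀ q : Nat.Primes, MC m (X q * sdM (s q) _ γ * Y q) (f q l : Matrix (Fin n) (Fin n) ℤ_[(q : ℕ)]))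

/-- LKEY. Joint density. Proof. LGG with the trivial `Q`. For `q ∣ m` let `B = Y q * A q * X q`, `C q = B` in
the standard case, the transpose of the adjugate of `B` in the dual case (`det = 1`). Choose
an integer matrix `C` with `C ≡ C q` modulo `m` in `ℤ_q` for all `q ∣ m` (each entry of `C q` is congruent to
an integer modulo `q ^ v`, Chinese remainder theorem for the prime powers of `m`). `det C ≡ 1` modulo `m`.
LSA gives `γ ≡ C` modulo `m`; then `X q * sdM (s q) _ γ * Y q ≡ A q` for `q ∣ m` (for the dual case: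
`γ⁻¹` is the adjugate of `γ`), and for `q` not dividing `m` every congruence holds (`m` is a unit). -/
def LKEY_stmt : Prop :=
  ∀ (n : ℕ), 3 ≤ n → ∀ (Λ : Type) [Group Λ], QuotLe Λ (SLZ n) →
    ∀ (f : Fam n Λ), (∀ q, (Set.range (f q)).Infinite) →
    ∀ (A : (q : Nat.Primes) → Matrix (Fin n) (Fin n) ℤ_[(q : ℕ)]), (∀ q, (A q).det = 1) →
    ∀ m : ℕ, m ≠ 0 → ∃ l : Λ, ∀ q : Nat.Primes, MC m (f q l : Matrix (Fin n) (Fin n) ℤ_[(q : ℕ)]) (A q)

/-- LCSP. Congruence subgroup property of `Λ`. Proof. LGG for `π` and `f`; CSP for the kernel of `π'` gives `m`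
with `γ ≡ 1` modulo `m → π' γ = 1`. Let `f q l ≡ 1` modulo `m` for all `q`; take `γ` with `π' γ = π l`,
`f q l ≡ X q * sdM (s q) _ γ * Y q`; then `sdM (s q) _ γ ≡ 1` modulo `m` in `ℤ_q` for all `q`, hence
`γ ≡ 1` modulo `m` in `ℤ` and `π l = π' γ = 1`. -/
def LCSP_stmt : Prop :=
  ∀ (n : ℕ), 3 ≤ n → ∀ (Λ : Type) [Group Λ], QuotLe Λ (SLZ n) →
    ∀ (Q : Type) [Group Q] [Finite Q] (π : Λ →* Q) (f : Fam n Λ), (∀ q, (Set.range (f q)).Infinite) →
    ∃ m : ℕ, m ≠ 0 ∧ ∀ l : Λ, (∀ q : Nat.Primes, MC m (f q l : Matrix (Fin n) (Fin n) ℤ_[(q : ℕ)]) 1) → π l = 1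

/-- LDET. Determinants are one: by LGG `det (f q l) ≡ det (X q * sdM .. * Y q) = 1` modulo all `m`. -/
def LDET_stmt : Prop :=
  ∀ (n : ℕ), 3 ≤ n → ∀ (Λ : Type) [Group Λ], QuotLe Λ (SLZ n) →
    ∀ (f : Fam n Λ), (∀ q, (Set.range (f q)).Infinite) → ∀ (q : Nat.Primes) (l : Λ),
      (f q l : Matrix (Fin n) (Fin n) ℤ_[(q : ℕ)]).det = 1

/-- LSPAN. Proof (LKEY). Suppose the `ℚ_q`-span is not everything: there is `B ≠ 0` with
`trace (B * qM (f q l)) = 0` for all `l` (a linear functional on matrices is `trace (B * ·)`); scale `B` to be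
integral with some entry a unit. LKEY with `m = q` and `A q` one of `1`, `1 + E_ij`,
`(1 + E_ij) (1 + E_ji)` (and `1` at the other primes): `trace B ≡ 0`, `B j i ≡ 0`, `B i i ≡ 0` modulo `q`: so all
entries of `B` are divisible by `q`, a contradiction. -/
def LSPAN_stmt : Prop :=
  ∀ (n : ℕ), 3 ≤ n → ∀ (Λ : Type) [Group Λ], QuotLe Λ (SLZ n) →
    ∀ (f : Fam n Λ), (∀ q, (Set.range (f q)).Infinite) → ∀ q : Nat.Primes,
      Submodule.span ℚ_[(q : ℕ)] (Set.range fun l => qM (f q l)) = ⊤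

/-- LRHO. Existence of `q`-adic representations. Proof (TR, LTOP). TR for `Γ := Λ` (finitely generated),
`Λ := SLZ n`, `P = GL (Fin n) ℤ_[q]` and the inclusion `SLZ n →* P`, which is injective, so of infinite range.
The range of the homomorphism `g` obtained has the same closure; a finite range would be closed. -/
def LRHO_stmt : Prop :=
  ∀ (n : ℕ), 3 ≤ n → ∀ (Λ : Type) [Group Λ], Group.FG Λ → QuotLe (SLZ n) Λ →
    ∀ (q : ℕ) [Fact q.Prime], ∃ f : Λ →* GL (Fin n) ℤ_[q], (Set.range f).Infinite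

/-- LFAI. Faithfulness. Proof (TRACE, LSPAN, LCSP). Let `f p l = 1`. With the `t` of TRACE for `p`, `q`:
`t (l * μ) = t μ = t (μ * l)` for all `μ` (also `f p l⁻¹ = 1`), so
`trace (f q (μ * l)) = trace (f q μ)` for all `μ` in both cases, i.e. `trace (f q μ * (f q l - 1)) = 0`; by
LSPAN for `q` this holds for all matrices in place of `f q μ`, so `f q l = 1`. This is so for all `q`. If
`l ≠ 1` take `H` of finite index with `l ∉ H`, `π : Λ → Λ ⧸ normalCore H`, `π l ≠ 1`, a contradiction to LCSP. -/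
def LFAI_stmt : Prop :=
  ∀ (n : ℕ), 3 ≤ n → ∀ (Λ : Type) [Group Λ], Group.FG Λ → QuotLe Λ (SLZ n) → RF Λ →
    ∀ (f : Fam n Λ), (∀ q, (Set.range (f q)).Infinite) → ∀ p : Nat.Primes, Function.Injective (f p)

/-- LINT. Traces are integers. Proof (TRACE for `p` and all `q`). `trace (f p l) = t` is rational; for each `q`,
`t l` is the trace of `f q l` (or for all `l`, `t l⁻¹` is the trace of `f q l`, so `t l` is the trace of
`f q l⁻¹`), in `ℤ_q`. (`t` does not depend on `q`: `ℚ → ℚ_p` is injective.) A rational number which is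
`q`-integral for all `q` is an integer. -/
def LINT_stmt : Prop :=
  ∀ (n : ℕ), 3 ≤ n → ∀ (Λ : Type) [Group Λ], Group.FG Λ → QuotLe Λ (SLZ n) →
    ∀ (f : Fam n Λ), (∀ q, (Set.range (f q)).Infinite) → ∀ (p : Nat.Primes) (l : Λ), ∃ t : ℤ,
      (f p l : Matrix (Fin n) (Fin n) ℤ_[(p : ℕ)]).trace = (t : ℤ_[(p : ℕ)])

/-- LR1. Rational form from an element of rank one. Proof. `A = e ⊗ φ` (`vecMulVec e φ`, `e`, `φ` nonzero).
The `k`-span `S` of the range is closed under products and traces of its elements are in `k`; so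
`φ ⬝ᵥ (a *ᵥ e) = trace (A * a)` is in `k` for `a ∈ S`. The vectors `ρ l *ᵥ e` span `F^n` over `F`
(every vector is `B *ᵥ e`, `B` in the `F`-span), so there are `l_1, ..., l_n` with `x = (ρ l_i *ᵥ e)_i`
(columns) invertible; similarly rows `φ ᵥ* ρ m_j`, forming `y₀` invertible. `G = y₀ * x` and
`N l = y₀ * ρ l * x` have entries `φ ⬝ᵥ (ρ (m_j * l * l_i) *ᵥ e)` in `k`;
`ρ l = x * (G⁻¹ * N l) * x⁻¹`, and `r l = G⁻¹ * N l` over `k` is a homomorphism since `k → F` is injective. -/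
def LR1_stmt : Prop :=
  ∀ (n : ℕ) (k F : Type) [Field k] [Field F] [Algebra k F] (Λ : Type) [Group Λ]
    (ρ : Λ →* Matrix (Fin n) (Fin n) F), Submodule.span F (Set.range ρ) = ⊤ →
    (∀ l, ∃ t : k, (ρ l).trace = algebraMap k F t) →
    ∀ A ∈ Submodule.span k (Set.range ρ), A.rank = 1 →
    ∃ (x y : Matrix (Fin n) (Fin n) F) (r : Λ →* Matrix (Fin n) (Fin n) k), x * y = 1 ∧ y * x = 1 ∧
      ∀ l, ρ l = x * (r l).map (algebraMap k F) * y

/-- LLQ. Integral traces and a spanning range give an invariant lattice. Proof. Choose `l_i` (`n²` of them)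
with `r l_i` a basis of the matrices over `ℚ`. The trace form is nondegenerate, so
`D = {a | ∀ i, trace (a * r l_i) ∈ ℤ}` is a finitely generated abelian group (coordinates: `a ↦ (trace (a * r l_i))_i`
is injective into `ℤ^(n²)`), and it contains the `ℤ`-span `O` of the range, so `O` is finitely generated.
`L = O *ᵥ ℤ^n` is a finitely generated subgroup of `ℚ^n` stable under `r`, containing `ℤ^n` (`r 1 = 1`); it is
torsion free, hence free, of rank `n`; the matrix `x` of a basis (columns) is invertible over `ℚ`, and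
`x⁻¹ * r l * x` is integral. -/
def LLQ_stmt : Prop :=
  ∀ (n : ℕ) (Λ : Type) [Group Λ] (r : Λ →* Matrix (Fin n) (Fin n) ℚ),
    Submodule.span ℚ (Set.range r) = ⊤ → (∀ l, ∃ t : ℤ, (r l).trace = (t : ℚ)) →
    ∃ (x y : Matrix (Fin n) (Fin n) ℚ) (R : Λ →* Matrix (Fin n) (Fin n) ℤ), x * y = 1 ∧ y * x = 1 ∧
      ∀ l, r l = x * (R l).map (Int.castRingHom ℚ) * y

/-- LSPQ. Descent of the spanning property (`F ⊇ k`): if `ρ l = x * (r l).map * y` and the `F`-span of the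
range of `ρ` is everything, then so is the `k`-span of the range of `r`. (A linear functional
`trace (B * ·)` over `k` which kills all `r l` gives `trace (y⁻¹... ) `: `trace (x * B.map * y * ρ l) = 0` for all
`l`, so `B.map = 0`.) -/
def LSPQ_stmt : Prop :=
  ∀ (n : ℕ) (k F : Type) [Field k] [Field F] [Algebra k F] (Λ : Type) [Group Λ]
    (ρ : Λ →* Matrix (Fin n) (Fin n) F) (r : Λ →* Matrix (Fin n) (Fin n) k)
    (x y : Matrix (Fin n) (Fin n) F), x * y = 1 → y * x = 1 →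
    (∀ l, ρ l = x * (r l).map (algebraMap k F) * y) → Submodule.span F (Set.range ρ) = ⊤ →
    Submodule.span k (Set.range r) = ⊤

/-- LEMB. Embedding of `Λ` as a congruence-dense subgroup of `SL(n, ℤ)`, given an element of rank one.
Proof. `ρ l = qM (f p l)`, `F = ℚ_p`, `k = ℚ`. LSPAN, LINT, LR1: `ρ = x r y` over `ℚ`; LSPQ; traces of
`r` are integers; LLQ; so `ρ l = x * (R l).map * y` with `R l` integral, `det = 1` by LDET. `R` is injective
by LFAI. Put `f' q l = R l` in `GL(n, ℤ_q)`: infinite range because `R` is injective and `Λ` is infinite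
(`f p` has infinite range); LKEY for `f'` and `A q = γ` gives `l` with `R l ≡ γ` modulo `m` in all `ℤ_q`, hence
in `ℤ`. -/
def LEMB_stmt : Prop :=
  ∀ (n : ℕ), 3 ≤ n → ∀ (Λ : Type) [Group Λ], Group.FG Λ → QuotLe Λ (SLZ n) → RF Λ →
    ∀ (f : Fam n Λ), (∀ q, (Set.range (f q)).Infinite) → ∀ p : Nat.Primes,
    ∀ A ∈ Submodule.span ℚ (Set.range fun l => qM (f p l)), A.rank = 1 →
    ∃ (R : Λ →* SLZ n) (x y : Matrix (Fin n) (Fin n) ℚ_[(p : ℕ)]), Function.Injective R ∧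
      x * y = 1 ∧ y * x = 1 ∧ (∀ l, qM (f p l) = x * stdM ℚ_[(p : ℕ)] (R l) * y) ∧
      ∀ (m : ℕ), m ≠ 0 → ∀ γ : SLZ n, ∃ l : Λ,
        MC m (R l : Matrix (Fin n) (Fin n) ℤ) (γ : Matrix (Fin n) (Fin n) ℤ)

/-- LRK1. Integer matrices of rank one. Proof. `B ≠ 0` has a nonzero row `B i₀ = d • φ` with `φ` of coprime
entries, `φ ⬝ᵥ ψ = 1`. Rank one: every row is an `F`-multiple `c_i • φ`; `e = B *ᵥ ψ` has the entries
`e_i = c_i` (in `F`), so `B = e ⊗ φ` (the map `ℤ → F` is injective). -/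
def LRK1_stmt : Prop :=
  ∀ (n : ℕ) (F : Type) [Field F] [CharZero F] (B : Matrix (Fin n) (Fin n) ℤ),
    (B.map (Int.castRingHom F)).rank = 1 → ∃ e φ : Fin n → ℤ, B = vecMulVec e φ

/-- LPD. Congruence density is profinite density, by CSP (`N` contains the principal congruence subgroup of
level `m`; `h ≡ γ` modulo `m` gives `h⁻¹ * γ ∈ N`). -/
def LPD_stmt : Prop :=
  ∀ (n : ℕ), 3 ≤ n → ∀ H : Subgroup (SLZ n),
    (∀ (m : ℕ), m ≠ 0 → ∀ γ : SLZ n, ∃ h ∈ H,
      MC m (h : Matrix (Fin n) (Fin n) ℤ) (γ : Matrix (Fin n) (Fin n) ℤ)) →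
    Pool.Agent.H48SL.ProfDense H

/-- LTR. A transvection and a further commuting element force `Λ` to be `SL(n, ℤ)`. Proof.
LEMB for `A = qM (f p t) - 1`; `z = R t`, `g = R u` in `H = range R`. `stdM (z) - 1` has
rank one, so `z = 1 + e ⊗ φ` (LRK1), `z ≠ 1`, `φ ⬝ᵥ e = 0` (`tv_data`); `g` commutes with `z`, so
`(g e) ⊗ φ = e ⊗ (φ g)`, `g e = c e` and `φ (g e) = 0`; `g ^ k ≠ z ^ m` as `R` is injective. LPD, `final_coef`
(`SLn/Final.lean`): `H = ⊤`. -/
def LTR_stmt : Prop :=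
  ∀ (n : ℕ), 3 ≤ n → ∀ (Λ : Type) [Group Λ], Group.FG Λ → QuotLe Λ (SLZ n) → RF Λ →
    ∀ (f : Fam n Λ), (∀ q, (Set.range (f q)).Infinite) → ∀ (p : Nat.Primes) (t u : Λ), t * u = u * t →
    (∀ k : ℕ, 0 < k → ∀ m : ℤ, u ^ k ≠ t ^ m) → (qM (f p t) - 1).rank = 1 →
    Nonempty (Λ ≃* SLZ n)

/-- LT1. First main theorem. Proof. LRHO (a family `f`), LFAI, NIL for `P` and `l ↦ qM (f p l)` (`p = 2`,
say; it is injective), LTR. -/
def LT1_stmt : Prop :=
  ∀ (n : ℕ), 3 ≤ n → ∀ (Λ : Type) [Group Λ], Group.FG Λ → QuotLe Λ (SLZ n) → QuotLe (SLZ n) Λ →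
    RF Λ → ∀ P : Subgroup Λ, BigClass n P → Nonempty (Λ ≃* SLZ n)

/-- LONE. One-sided statement for subgroups of `SL(n, ℤ)`. Proof. `f q h = h`, infinite range. LKEY with
`A q = γ`, LPD; LCSP for `π : H → H ⧸ K`. -/
def LONE_stmt : Prop :=
  ∀ (n : ℕ), 3 ≤ n → ∀ H : Subgroup (SLZ n), Infinite H → QuotLe H (SLZ n) →
    Pool.Agent.H48SL.ProfDense H ∧
    ∀ K : Subgroup H, K.FiniteIndex → ∃ m : ℕ, m ≠ 0 ∧
      ∀ h : H, MC m ((h : SLZ n) : Matrix (Fin n) (Fin n) ℤ) 1 → h ∈ K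

end Pool.Agent.PR
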