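import Mathlib
import Pool.Agent.helper48.SLn.Final

/-!
# Project pr (MP_a2a22c_al): absolute theorems on the profinite rigidity of `SL(n, ℤ)`. Definitions.

`Λ` is a finitely generated group. `QuotLe Λ Γ`: every finite quotient of `Λ` is a quotient of `Γ`.
`SLZ n` is `SL(n, ℤ)`. `stdM F γ` is the matrix of `γ` over `F` (standard representation), `duM F γ` is
the transpose of the matrix of `γ⁻¹` (dual representation).

Main interface statements of the project (each is proved from the parts of the project):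
* `TR_stmt` transfer of homomorphisms to profinite groups,
* `CL_stmt` classification of the representations of dimension `n` of `SL(n, ℤ)`,
* `CSP_stmt` congruence subgroup property,
* `TRACE_stmt` traces of `ℓ`-adic representations of `Λ` are rational and independent of `ℓ` up to duality,
* `NIL_stmt` rank one elements in nilpotent groups.
-/

set_option autoImplicit false

namespace Pool.Agent.PR

open Matrix

/-- `SL(n, ℤ)` -/
abbrev SLZ (n : ℕ) : Type := Matrix.SpecialLinearGroup (Fin n) ℤ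

/-- every finite quotient of `Λ` is a quotient of `Γ` -/
def QuotLe (Λ Γ : Type) [Group Λ] [Group Γ] : Prop :=
  ∀ (Q : Type) [Group Q] [Finite Q], (∃ f : Λ →* Q, Function.Surjective f) →
    ∃ f : Γ →* Q, Function.Surjective f

/-- the matrix of `γ` over `F` -/
def stdM {n : ℕ} (F : Type) [CommRing F] (γ : SLZ n) : Matrix (Fin n) (Fin n) F :=
  (γ : Matrix (Fin n) (Fin n) ℤ).map (Int.castRingHom F)

/-- the transpose of the matrix of `γ⁻¹` over `F` -/
def duM {n : ℕ} (F : Type) [CommRing F] (γ : SLZ n) : Matrix (Fin n) (Fin n) F :=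
  (stdM F γ⁻¹)ᵀ

/-- elementary matrix `1 + a E_{ij}` -/
def el {n : ℕ} (i j : Fin n) (h : i ≠ j) (a : ℤ) : SLZ n :=
  ⟨Matrix.transvection i j a, Matrix.det_transvection_of_ne i j h a⟩

/-- Transfer. -/
def TR_stmt : Prop :=
  ∀ (Γ Λ : Type) [Group Γ] [Group Λ], Group.FG Γ → QuotLe Λ Γ →
    ∀ (P : Type) [Group P] [TopologicalSpace P] [IsTopologicalGroup P] [CompactSpace P] [T2Space P]
      [TotallyDisconnectedSpace P] (f : Λ →* P),
      ∃ g : Γ →* P, closure (Set.range g) = closure (Set.range f)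

/-- Classification: a representation of `SL(n, ℤ)`, `n ≥ 3`, of dimension `n` over a field of
characteristic zero with infinite image is standard or dual. -/
def CL_stmt : Prop :=
  ∀ (n : ℕ), 3 ≤ n → ∀ (F : Type) [Field F] [CharZero F] (r : SLZ n →* Matrix (Fin n) (Fin n) F),
    (Set.range r).Infinite → ∃ x y : Matrix (Fin n) (Fin n) F, x * y = 1 ∧ y * x = 1 ∧
      ((∀ γ, r γ = x * stdM F γ * y) ∨ (∀ γ, r γ = x * duM F γ * y))

/-- Congruence subgroup property (Bass-Milnor-Serre, Mennicke). -/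
def CSP_stmt : Prop :=
  ∀ (n : ℕ), 3 ≤ n → ∀ N : Subgroup (SLZ n), N.Normal → N.FiniteIndex →
    ∃ m : ℕ, m ≠ 0 ∧
      (Matrix.SpecialLinearGroup.map (n := Fin n) (Int.castRingHom (ZMod m))).ker ≤ N

/-- The traces of a representation `ρ : Λ → GL(n, ℤ_p)` with infinite image are rational, and for two
primes `p`, `q` (possibly equal) the traces of two such representations are the same up to duality. -/
def TRACE_stmt : Prop :=
  ∀ (n : ℕ), 3 ≤ n → ∀ (Λ : Type) [Group Λ], Group.FG Λ → QuotLe Λ (SLZ n) →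
    ∀ (p q : ℕ) [Fact p.Prime] [Fact q.Prime] (ρ : Λ →* GL (Fin n) ℤ_[p])
      (ρ' : Λ →* GL (Fin n) ℤ_[q]), (Set.range ρ).Infinite → (Set.range ρ').Infinite →
      ∃ t : Λ → ℚ, (∀ l, (((ρ l : Matrix (Fin n) (Fin n) ℤ_[p]).trace : ℤ_[p]) : ℚ_[p]) = (t l : ℚ_[p])) ∧
        ((∀ l, (((ρ' l : Matrix (Fin n) (Fin n) ℤ_[q]).trace : ℤ_[q]) : ℚ_[q]) = (t l : ℚ_[q])) ∨
         (∀ l, (((ρ' l : Matrix (Fin n) (Fin n) ℤ_[q]).trace : ℤ_[q]) : ℚ_[q]) = (t l⁻¹ : ℚ_[q])))

/-- the hypothesis on the nilpotent group: class `≥ n - 1`, or `n = 4` and class `≥ 2` -/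
def BigClass (n : ℕ) (P : Type) [Group P] : Prop :=
  Group.IsNilpotent P ∧ (∀ g : P, g ≠ 1 → ∀ k : ℕ, 0 < k → g ^ k ≠ 1) ∧
    ((⊤ : Subgroup P).lowerCentralSeries (n - 2) ≠ ⊥ ∨
      (n = 4 ∧ (⊤ : Subgroup P).lowerCentralSeries 1 ≠ ⊥))

/-- Rank one elements in nilpotent groups. -/
def NIL_stmt : Prop :=
  ∀ (n : ℕ), 3 ≤ n → ∀ (F : Type) [Field F] [CharZero F] (P : Type) [Group P], BigClass n P →
    ∀ ρ : P →* Matrix (Fin n) (Fin n) F, Function.Injective ρ →
      ∃ t u : P, t * u = u * t ∧ (ρ t - 1).rank = 1 ∧ ∀ k : ℕ, 0 < k → ∀ m : ℤ, u ^ k ≠ t ^ m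

end Pool.Agent.PR
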