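import Pool.Agent.helper48.PR.Defs

/-!
# Project pr: basic lemmas
-/

set_option autoImplicit false

namespace Pool.Agent.PR

open Matrix

variable {n : ℕ}

theorem stdM_one (F : Type) [CommRing F] : stdM F (1 : SLZ n) = 1 := by
  simp [stdM]

theorem stdM_mul (F : Type) [CommRing F] (γ δ : SLZ n) : stdM F (γ * δ) = stdM F γ * stdM F δ := by
  unfold stdM
  rw [Matrix.SpecialLinearGroup.coe_mul, Matrix.map_mul]

theorem duM_one (F : Type) [CommRing F] : duM F (1 : SLZ n) = 1 := by
  simp [duM, stdM_one]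

theorem duM_mul (F : Type) [CommRing F] (γ δ : SLZ n) : duM F (γ * δ) = duM F γ * duM F δ := by
  simp [duM, stdM_mul, Matrix.transpose_mul]

/-- the standard representation -/
def stdHom (n : ℕ) (F : Type) [CommRing F] : SLZ n →* Matrix (Fin n) (Fin n) F where
  toFun := stdM F
  map_one' := stdM_one F
  map_mul' := stdM_mul F

/-- the dual representation -/
def duHom (n : ℕ) (F : Type) [CommRing F] : SLZ n →* Matrix (Fin n) (Fin n) F where
  toFun := duM F
  map_one' := duM_one F
  map_mul' := duM_mul F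

@[simp] theorem stdHom_apply (F : Type) [CommRing F] (γ : SLZ n) : stdHom n F γ = stdM F γ := rfl
@[simp] theorem duHom_apply (F : Type) [CommRing F] (γ : SLZ n) : duHom n F γ = duM F γ := rfl

theorem det_stdM (F : Type) [CommRing F] (γ : SLZ n) : (stdM F γ).det = 1 := by
  rw [stdM, ← RingHom.mapMatrix_apply, ← RingHom.map_det, γ.2, map_one]

theorem det_duM (F : Type) [CommRing F] (γ : SLZ n) : (duM F γ).det = 1 := by
  rw [duM, Matrix.det_transpose, det_stdM]

theorem stdM_mul_inv (F : Type) [CommRing F] (γ : SLZ n) : stdM F γ * stdM F γ⁻¹ = 1 := by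
  rw [← stdM_mul, mul_inv_cancel, stdM_one]

theorem stdM_inv_mul (F : Type) [CommRing F] (γ : SLZ n) : stdM F γ⁻¹ * stdM F γ = 1 := by
  rw [← stdM_mul, inv_mul_cancel, stdM_one]

theorem el_coe {i j : Fin n} (h : i ≠ j) (a : ℤ) :
    ((el i j h a : SLZ n) : Matrix (Fin n) (Fin n) ℤ) = 1 + Matrix.single i j a := rfl

theorem el_zero {i j : Fin n} (h : i ≠ j) : el i j h 0 = 1 := by
  apply Subtype.ext
  rw [el_coe, Matrix.single_zero, add_zero]
  rfl

theorem el_add {i j : Fin n} (h : i ≠ j) (a b : ℤ) : el i j h a * el i j h b = el i j h (a + b) := by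
  apply Pool.Agent.H48SL.SL_ext
  rw [Matrix.SpecialLinearGroup.coe_mul, el_coe, el_coe, el_coe, Matrix.single_add]
  rw [add_mul, mul_add, mul_add, one_mul, one_mul, mul_one,
    Matrix.single_mul_single_of_ne _ _ _ _ h.symm, add_zero]
  abel

theorem el_neg {i j : Fin n} (h : i ≠ j) (a : ℤ) : el i j h (-a) = (el i j h a)⁻¹ := by
  rw [eq_inv_iff_mul_eq_one, el_add, neg_add_cancel, el_zero]

theorem el_pow {i j : Fin n} (h : i ≠ j) (a : ℤ) (k : ℕ) : el i j h a ^ k = el i j h (k * a) := by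
  induction k with
  | zero => simp [el_zero]
  | succ k ih => rw [pow_succ, ih, el_add]; congr 1; push_cast; ring

theorem el_eq_xe {i j : Fin n} (h : i ≠ j) (a : ℤ) : el i j h a = Pool.Agent.H48SL.xe i j a := by
  apply Subtype.ext
  rw [el_coe]
  unfold Pool.Agent.H48SL.xe
  rw [Pool.Agent.H48SL.tv_coe (Pool.Agent.H48SL.single_dot h a)]
  congr 1
  ext k l
  rw [Matrix.vecMulVec_apply, Matrix.single_apply, Pi.single_apply, Pi.single_apply]
  by_cases h1 : i = k
  · by_cases h2 : j = l
    · subst h1; subst h2; simp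
    · subst h1; simp [h2, Ne.symm h2]
  · simp [h1, Ne.symm h1]

/-- `[e_ij(a), e_jl(b)] = e_il(ab)` -/
theorem el_commutator {i j l : Fin n} (hij : i ≠ j) (hjl : j ≠ l) (hil : i ≠ l) (a b : ℤ) :
    el i j hij a * el j l hjl b = el i l hil (a * b) * el j l hjl b * el i j hij a := by
  apply Pool.Agent.H48SL.SL_ext
  simp only [Matrix.SpecialLinearGroup.coe_mul, el_coe]
  simp only [add_mul, mul_add, one_mul, mul_one, Matrix.single_mul_single_same,
    Matrix.single_mul_single_of_ne _ _ _ _ hil.symm,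
    Matrix.single_mul_single_of_ne _ _ _ _ hjl.symm,
    Matrix.single_mul_single_of_ne _ _ _ _ hij.symm, add_zero, zero_mul, mul_zero, zero_add]
  abel

/-- `e_ij(a)` and `e_lm(b)` commute if `j ≠ l`, `i ≠ m` -/
theorem el_comm {i j l m : Fin n} (hij : i ≠ j) (hlm : l ≠ m) (hjl : j ≠ l) (him : i ≠ m) (a b : ℤ) :
    el i j hij a * el l m hlm b = el l m hlm b * el i j hij a := by
  apply Pool.Agent.H48SL.SL_ext
  simp only [Matrix.SpecialLinearGroup.coe_mul, el_coe]
  simp only [add_mul, mul_add, one_mul, mul_one, Matrix.single_mul_single_of_ne _ _ _ _ hjl,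
    Matrix.single_mul_single_of_ne _ _ _ _ him.symm, add_zero]
  abel

/-- `SL(n, ℤ)` is generated by the elementary matrices `e_ij(1)`. -/
theorem el_gen (K : Subgroup (SLZ n)) (hK : ∀ (i j : Fin n) (h : i ≠ j), el i j h 1 ∈ K) : K = ⊤ := by
  rw [eq_top_iff, ← Pool.Agent.H48SL.ES_univ]
  unfold Pool.Agent.H48SL.ES
  rw [Subgroup.closure_le]
  rintro g ⟨i, _, j, _, hij, c, rfl⟩
  rw [← el_eq_xe hij]
  have h1 : ∀ k : ℕ, el i j hij k ∈ K := by
    intro k
    have := K.pow_mem (hK i j hij) k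
    rwa [el_pow, mul_one] at this
  obtain ⟨k, rfl | rfl⟩ := c.eq_nat_or_neg
  · exact h1 k
  · rw [el_neg]; exact K.inv_mem (h1 k)

/-- two homomorphisms to a monoid which agree on the `e_ij(1)` are equal -/
theorem hom_ext {M : Type} [Monoid M] (f g : SLZ n →* M)
    (h : ∀ (i j : Fin n) (h : i ≠ j), f (el i j h 1) = g (el i j h 1)) : f = g := by
  have h2 : ∀ x ∈ (⊤ : Subgroup (SLZ n)), f x = g x := by
    have h3 := el_gen (f.toHomUnits.eqLocus g.toHomUnits) (by
      intro i j hij
      show f.toHomUnits _ = g.toHomUnits _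
      apply Units.ext
      exact h i j hij)
    intro x hx
    rw [← h3] at hx
    have h4 : f.toHomUnits x = g.toHomUnits x := hx
    exact congrArg Units.val h4
  ext x
  exact h2 x (Subgroup.mem_top x)

end Pool.Agent.PR
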