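import Pool.Agent.helper5.PR.AsmK
import Pool.Agent.helper67.PR.LTRP
import Pool.Agent.helper28.PR.LTOP
import Pool.Agent.helper61.PR.LINF
import Pool.Agent.helper1.PR.LLAT
import Pool.Agent.helper65.PR.LCZ
import Pool.Agent.helper90.PR.LSA
import Pool.Agent.helper99.PR.LGG
import Pool.Agent.helper45.PR.LKEY
import Pool.Agent.helper62.PR.LCSP
import Pool.Agent.helper27.PR.LDET
import Pool.Agent.helper99.PR.LSPAN
import Pool.Agent.helper87.PR.LRHO
import Pool.Agent.helper1.PR.LFAI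
import Pool.Agent.helper62.PR.LINT
import Pool.Agent.helper93.PR.LR1
import Pool.Agent.helper40.PR.LLQ
import Pool.Agent.helper1.PR.LSPQ
import Pool.Agent.helper71.PR.LEMB
import Pool.Agent.helper1.PR.LRK1
import Pool.Agent.helper25.PR.LPD
import Pool.Agent.helper84.PR.LTR
import Pool.Agent.helper3.PR.LONE

/-!
Project pr: assembly of parts K and L.
-/

namespace Pool.Agent.PR







theorem tLCZ : LCZ_stmt := LCZ tCL LLAT
theorem tLGG : LGG_stmt := LGG (LTRP tTR LTOP) LINF tLCZ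
theorem tLKEY : LKEY_stmt := LKEY tLGG LSA
theorem tLCSP : LCSP_stmt := LCSP tLGG tCSP
theorem tLDET : LDET_stmt := LDET tLGG
theorem tLSPAN : LSPAN_stmt := LSPAN tLKEY
theorem tLRHO : LRHO_stmt := LRHO tTR LTOP
theorem tLFAI : LFAI_stmt := LFAI tTRACE tLSPAN tLCSP
theorem tLINT : LINT_stmt := LINT tTRACE
theorem tLEMB : LEMB_stmt := LEMB tLSPAN tLINT LR1 LSPQ LLQ tLDET tLFAI tLKEY
theorem tLPD : LPD_stmt := LPD tCSP
theorem tLTR : LTR_stmt := LTR tLEMB LRK1 tLPD
theorem tLONE : LONE_stmt := LONE tLKEY tLPD tLCSP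

end Pool.Agent.PR
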