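import Pool.Agent.helper48.PR.SpecC
import Pool.Agent.helper48.PR.SpecL

/-!
# Project pr (MP_a2a22c_al), part H: Heisenberg groups in dimension `n ≤ m + 3`

A module XX proves `theorem XX (hYY : YY_stmt) ... : XX_stmt` (hypotheses: statements of `Defs.lean`,
`SpecC.lean`, `SpecL.lean` and EARLIER statements of this file) in the file `Pool/Agent/<seat>/PR/XX.lean`,
namespace `Pool.Agent.PR`, auxiliary lemmas with the prefix `XX_`.

`Heis x y z`: `x_i, y_i, z` satisfy the relations of the integral Heisenberg group of rank `2 m + 1`.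
`LH X Y Z`: nilpotent endomorphisms with the relations of the Heisenberg Lie algebra. `Mop X Y e` is
`∑ e.1 i • X i + e.2 i • Y i`, `om` is the symplectic form, `[Mop e, Mop e'] = om e e' • Z`.
-/

set_option autoImplicit false

namespace Pool.Agent.PR

open Matrix

/-- integral Heisenberg relations -/
structure Heis {G : Type} [Monoid G] {m : ℕ} (x y : Fin m → G) (z : G) : Prop where
  xz : ∀ i, x i * z = z * x i
  yz : ∀ i, y i * z = z * y i
  xx : ∀ i j, x i * x j = x j * x i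
  yy : ∀ i j, y i * y j = y j * y i
  xy : ∀ i j, i ≠ j → x i * y j = y j * x i
  xyz : ∀ i, x i * y i = z * (y i * x i)

/-- nilpotent representation of the Heisenberg Lie algebra -/
structure LH {F V : Type} [Field F] [AddCommGroup V] [Module F V] {m : ℕ}
    (X Y : Fin m → Module.End F V) (Z : Module.End F V) : Prop where
  xz : ∀ i, X i * Z = Z * X i
  yz : ∀ i, Y i * Z = Z * Y i
  xx : ∀ i j, X i * X j = X j * X i
  yy : ∀ i j, Y i * Y j = Y j * Y i
  xy : ∀ i j, X i * Y j - Y j * X i = if i = j then Z else 0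
  nx : ∀ i, IsNilpotent (X i)
  ny : ∀ i, IsNilpotent (Y i)
  nz : IsNilpotent Z

/-- the operator of a vector of the symplectic space `F^m × F^m` -/
def Mop {F V : Type} [Field F] [AddCommGroup V] [Module F V] {m : ℕ} (X Y : Fin m → Module.End F V)
    (e : (Fin m → F) × (Fin m → F)) : Module.End F V := ∑ i, (e.1 i • X i + e.2 i • Y i)

/-- the symplectic form -/
def om {F : Type} [Field F] {m : ℕ} (e e' : (Fin m → F) × (Fin m → F)) : F :=
  ∑ i, (e.1 i * e'.2 i - e.2 i * e'.1 i)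

/-- HA. Unipotent part. Proof. Mathlib: `Module.End.exists_isNilpotent_isSemisimple` (for `A` as an
endomorphism): `A = N + S`, `N`, `S` in `adjoin {A}`, `N` nilpotent, `S` semisimple. `S = A - N` is
invertible (`N` nilpotent, commuting with the invertible `A`); `U = S⁻¹ A = 1 + S⁻¹ N`. Let `g A g⁻¹ = ζ A`.
`g S g⁻¹` is semisimple and in `adjoin {ζ A}`, so it commutes with `S` (which commutes with `ζ` and `A`);
`g S g⁻¹ - S = (ζ - 1) S + ζ N - g N g⁻¹` is nilpotent (commuting nilpotents) and semisimple (difference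
of commuting semisimples over a perfect field, `IsSemisimple.sub_of_commute`), so it is `0`. Then
`g U g⁻¹ = S⁻¹ ζ A = ζ U`. -/
def HA_stmt : Prop :=
  ∀ (n : ℕ) (F : Type) [Field F] [CharZero F] (A A' : Matrix (Fin n) (Fin n) F), A * A' = 1 →
    ∃ U U' : Matrix (Fin n) (Fin n) F, IsNilpotent (U - 1) ∧ U * U' = 1 ∧
      ∀ g g' ζ : Matrix (Fin n) (Fin n) F, g * g' = 1 → IsNilpotent (ζ - 1) → ζ * A = A * ζ →
        ζ * g = g * ζ → g * A = ζ * A * g → g * U = ζ * U * g

/-- HB. From group relations to Lie relations. Proof. HA for all `y i` gives `U (y i)` with: `x i`, `z`, `y j`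
and then `U (y j)` commute with `U (y i)` except `x i * U (y i) = z * U (y i) * x i`. HA for `x i`: with
`g = U (y i)`, `ζ = z⁻¹` (its `- 1` is nilpotent). Then `X i = lg (U (x i))`, `Y i = lg (U (y i))`,
`Z = lg z` (C2: logarithms commute with everything that commutes with the arguments), and C3 for
`exp (X i) exp (Y i) = exp Z exp (Y i) exp (X i)`. -/
def HB_stmt : Prop :=
  ∀ (n m : ℕ) (F : Type) [Field F] [CharZero F] (x y x' y' : Fin m → Matrix (Fin n) (Fin n) F)
    (z : Matrix (Fin n) (Fin n) F), Heis x y z → (∀ i, x i * x' i = 1) → (∀ i, y i * y' i = 1) →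
    IsNilpotent (z - 1) → ∃ (X Y : Fin m → Matrix (Fin n) (Fin n) F) (Z : Matrix (Fin n) (Fin n) F),
      IsNilpotent.exp Z = z ∧
      LH (fun i => Matrix.toLin' (X i)) (fun i => Matrix.toLin' (Y i)) (Matrix.toLin' Z)

/-- HD. Basic facts. (2): let `h = Mop X Y e + c • Z`. On `ker Z` all `X i`, `Y i` act and commute (their
commutators are `0` or `Z`), so `h` acts there as a sum of commuting nilpotents: `h ^ N` kills `ker Z`. As `h`
commutes with `Z`, `h ^ N` maps `ker (Z ^ (k+1))` to `ker (Z ^ k)`. -/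
def HD_stmt : Prop :=
  ∀ (F V : Type) [Field F] [AddCommGroup V] [Module F V] (m : ℕ) (X Y : Fin m → Module.End F V)
    (Z : Module.End F V), LH X Y Z →
    (∀ e e', Mop X Y e * Mop X Y e' - Mop X Y e' * Mop X Y e = om e e' • Z) ∧
    (∀ (e : (Fin m → F) × (Fin m → F)) (c : F), IsNilpotent (Mop X Y e + c • Z))

/-- HE. Isotropic subspaces have dimension at most `m`, and the form is nondegenerate: every linear form
is `om f`. (The map `K → Dual (E / K)`, `e ↦ om e`, is injective for isotropic `K`, so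
`dim K ≤ 2 m - dim K`.) -/
def HE_stmt : Prop :=
  ∀ (F : Type) [Field F] (m : ℕ),
    (∀ K : Submodule F ((Fin m → F) × (Fin m → F)), (∀ e ∈ K, ∀ e' ∈ K, om e e' = 0) →
      Module.finrank F K ≤ m) ∧
    (∀ e : (Fin m → F) × (Fin m → F), (∀ e', om e e' = 0) → e = 0) ∧
    (∀ l : ((Fin m → F) × (Fin m → F)) →ₗ[F] F, ∃ f, ∀ e, om f e = l e)

/-- HF. The bound `dim V ≥ m + 2`. Proof (HD, HE). Let `Z v ≠ 0`. `D : E × F → V`, `(e, c) ↦ (Mop e + c Z) v`. Its
kernel meets `0 × F` only in `0` and its projection `K` to `E` is isotropic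
(`0 = [h, h'] v = om e e' • Z v`), so it has dimension `≤ m` and the range of `D` has dimension `≥ m + 1`.
`v` is not in the range: `v = h v` contradicts that `h` is nilpotent. -/
def HF_stmt : Prop :=
  ∀ (F V : Type) [Field F] [AddCommGroup V] [Module F V] [FiniteDimensional F V] (m : ℕ)
    (X Y : Fin m → Module.End F V) (Z : Module.End F V), LH X Y Z → Z ≠ 0 →
    m + 2 ≤ Module.finrank F V

/-- HG. The case `Z ^ 2 ≠ 0`. Proof. Let `p ≥ 3` be minimal with `Z ^ p = 0`. The subspaces `range (Z ^ k)` are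
stable under all operators; the restrictions satisfy `LH`. HF for `U = range (Z ^ (p - 2))` (`Z` is not zero
on it, `Z ^ (p - 1) ≠ 0`): `3 ≤ m + 2 ≤ dim U = dim (U ∩ ker Z) + dim (Z U) ≤ 2 dim (ker Z)` (`Z (Z U) = 0`), so
`dim (ker Z) ≥ 2`. HF for `range Z` (`Z ^ 2 ≠ 0`): `dim (range Z) ≥ m + 2`. Add. -/
def HG_stmt : Prop :=
  ∀ (F V : Type) [Field F] [AddCommGroup V] [Module F V] [FiniteDimensional F V] (m : ℕ), 1 ≤ m →
    ∀ (X Y : Fin m → Module.End F V) (Z : Module.End F V), LH X Y Z → Z * Z ≠ 0 →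
    m + 4 ≤ Module.finrank F V

/-- HK. A common kernel vector in `range Z` if `Z ^ 2 = 0`, `Z ≠ 0`. (All `X i`, `Y i` preserve `range Z` and
commute on it since `Z` is `0` there; commuting nilpotent operators on a nonzero space have a common
kernel vector: induct on the number of operators, the kernel of one is nonzero and stable.) -/
def HK_stmt : Prop :=
  ∀ (F V : Type) [Field F] [AddCommGroup V] [Module F V] [FiniteDimensional F V] (m : ℕ)
    (X Y : Fin m → Module.End F V) (Z : Module.End F V), LH X Y Z → Z * Z = 0 → Z ≠ 0 →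
    ∃ v : V, Z v ≠ 0 ∧ ∀ e, Mop X Y e (Z v) = 0

/-- HL. The case `Z ^ 2 = 0`. Proof (HK, HD, HE). Let `v` be as in HK, `w = Z v`, `ψ w = 1` for a linear form `ψ`.
`r = dim (range Z)`, `n = dim V`, `s = n - 2 r = dim (ker Z / range Z)`. The linear map
`e ↦ ψ ∘ Mop e ∘ Z` has values in the forms which vanish on `ker Z` and on `v` (as `Mop e w = 0`), a space of
dimension `r - 1`, so its kernel `E'` has dimension `≥ 2 m - (r - 1)`. For `e ∈ E'`, `Mop e v ∈ ker Z`
(`Z (Mop e v) = Mop e w = 0`); `K = {e ∈ E' | Mop e v ∈ range Z}` has dimension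
`≥ 2 m - (r - 1) - s`. `K` is isotropic: `om e e' = ψ (om e e' • w) = ψ (Mop e (Mop e' v)) - ψ (Mop e' (Mop e v))`
and `Mop e' v = Z u`, `ψ (Mop e (Z u)) = 0`. So `2 m - (r - 1) - (n - 2 r) ≤ m`. -/
def HL_stmt : Prop :=
  ∀ (F V : Type) [Field F] [AddCommGroup V] [Module F V] [FiniteDimensional F V] (m : ℕ)
    (X Y : Fin m → Module.End F V) (Z : Module.End F V), LH X Y Z → Z * Z = 0 → Z ≠ 0 →
    m + Module.finrank F (LinearMap.range Z) + 1 ≤ Module.finrank F V

/-- HM. The borderline case `r = 2`. Proof (HK, HD, HE). Suppose `n = m + 3`, so `s = n - 4 = m - 1`. `W = range Z`,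
`w = Z v` as in HK. (1) Some `Mop e` is not `0` on `W`: otherwise (any `ψ` with `ψ w = 1`)
`K = {e | Mop e v ∈ W}` is isotropic as in HL and of dimension `≥ 2 m - s = m + 1`. (2) Let `W` have
the basis `w, w₂ = Z v₂`. `Mop e` is nilpotent on `W` and kills `w`, so `Mop e w₂ = l e • w` with a linear form
`l ≠ 0`; `l e₀ = 1`; HE: `f` with `om f e = l e`, so `l f = om f f = 0`. (3) Let `v'` be `v` or `v₂`
and `ψ (Z v') = 1`. Let `E' = ker l`; for `e ∈ E'`: `Mop e` kills `W`, so `Mop e v' ∈ ker Z` and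
`ψ ∘ Mop e` vanishes on `W`. `K' = {e ∈ E' | Mop e v' ∈ W, ψ ∘ Mop e = 0 on ker Z}` has dimension
`≥ (2 m - 1) - 2 s = 1`; let `0 ≠ e₁ ∈ K'`. For `e ∈ E'`,
`om e₁ e = ψ (Mop e₁ (Mop e v')) - ψ (Mop e (Mop e₁ v')) = 0 - 0`. So `om e₁` vanishes on `ker l`,
`om e₁ = c • l`, `e₁ = c • f`, `c ≠ 0`, and `f ∈ K'`. (4) Hence `Mop f v ∈ W`, `Mop f v₂ ∈ W`, and (all `ψ` with
`ψ w = 1`) `Mop f` kills `ker Z`. Write `Mop f v = a • w + c • w₂`, `Mop f v₂ = b • w + d • w₂`.
`[Mop e₀, Mop f] = om e₀ f • Z = - Z`. On `v`: `Mop e₀ v ∈ ker Z`, so `c • w = - w`, `c = -1`. On `v₂`: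
`Z (Mop e₀ v₂) = w = Z v`, so `Mop e₀ v₂ - v ∈ ker Z` and `d • w - (a • w + c • w₂) = - w₂`, `c = 1`. Contradiction
in characteristic zero. -/
def HM_stmt : Prop :=
  ∀ (F V : Type) [Field F] [CharZero F] [AddCommGroup V] [Module F V] [FiniteDimensional F V] (m : ℕ),
    1 ≤ m → ∀ (X Y : Fin m → Module.End F V) (Z : Module.End F V), LH X Y Z → Z * Z = 0 →
    Module.finrank F (LinearMap.range Z) = 2 → Module.finrank F V ≠ m + 3

/-- HI. Conclusion for the Lie algebra (HG, HL, HM). -/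
def HI_stmt : Prop :=
  ∀ (F V : Type) [Field F] [CharZero F] [AddCommGroup V] [Module F V] [FiniteDimensional F V] (m : ℕ),
    1 ≤ m → ∀ (X Y : Fin m → Module.End F V) (Z : Module.End F V), LH X Y Z → Z ≠ 0 →
    Module.finrank F V ≤ m + 3 → Z * Z = 0 ∧ Module.finrank F (LinearMap.range Z) = 1

/-- HJ. Conclusion for the group. Proof. Put `k = n !`; `z ^ k - 1` is nilpotent (C1 for `x 0`, `y 0`),
`x i ^ k`, `y i`, `z ^ k` satisfy `Heis`; HB, HI (`Z ≠ 0` as `z ^ k ≠ 1`): `exp Z = 1 + Z` has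
`rank (exp Z - 1) = 1`. -/
def HJ_stmt : Prop :=
  ∀ (n m : ℕ), 1 ≤ m → n ≤ m + 3 → ∀ (F : Type) [Field F] [CharZero F] (G : Type) [Group G]
    (ρ : G →* Matrix (Fin n) (Fin n) F) (x y : Fin m → G) (z : G), Heis x y z →
    (∀ k : ℕ, 0 < k → ρ (z ^ k) ≠ 1) → ∃ k : ℕ, 0 < k ∧ (ρ (z ^ k) - 1).rank = 1

/-- HT. Main theorem for Heisenberg groups. Proof. LRHO (a family `f`), LFAI, HJ for `l ↦ qM (f p l)`
(`p = 2`, say; it is injective), `t = z ^ k`, `u = x 0`: if `u ^ a = t ^ b`, `a > 0`, then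
`u ^ a * y 0 = z ^ a * (y 0 * u ^ a)` gives `z ^ a = 1`. LTR. -/
def HT_stmt : Prop :=
  ∀ (n : ℕ), 3 ≤ n → ∀ (Λ : Type) [Group Λ], Group.FG Λ → QuotLe Λ (SLZ n) → QuotLe (SLZ n) Λ →
    RF Λ → ∀ m : ℕ, 1 ≤ m → n ≤ m + 3 → ∀ (x y : Fin m → Λ) (z : Λ), Heis x y z →
    (∀ k : ℕ, 0 < k → z ^ k ≠ 1) → Nonempty (Λ ≃* SLZ n)

/-- HN. A torsion free nilpotent group which is not abelian contains a Heisenberg group of rank three.
(`x` in the second centre, not in the centre; `y` with `z = x y x⁻¹ y⁻¹ ≠ 1`, which is central.) For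
`BigClass n P`, `3 ≤ n`, `P` is not abelian. -/
def HN_stmt : Prop :=
  ∀ (n : ℕ), 3 ≤ n → ∀ (P : Type) [Group P], BigClass n P →
    ∃ (x y : Fin 1 → P) (z : P), Heis x y z ∧ ∀ k : ℕ, 0 < k → z ^ k ≠ 1

/-- HS. `SL(n - 1, ℤ)` and its subgroups of finite index contain large Heisenberg groups: for `k ≥ 3` and a
subgroup `Δ` of finite index of `SL(k, ℤ)`: with `q` such that all `el i j q` are in `Δ` (`q` = index of the
normal core), `x i = el 0 (i+1) q`, `y i = el (i+1) (k-1) q` (`i < k - 2`), `z = el 0 (k-1) (q * q)`. -/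
def HS_stmt : Prop :=
  ∀ (k : ℕ), 3 ≤ k → ∀ Δ : Subgroup (SLZ k), Δ.FiniteIndex →
    ∃ (x y : Fin (k - 2) → Δ) (z : Δ), Heis x y z ∧ ∀ j : ℕ, 0 < j → z ^ j ≠ 1

end Pool.Agent.PR
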