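import Pool.Agent.helper48.PR.SpecL

/-!
# Project pr (MP_a2a22c_al), part T: the case `n = 3`

A module XX proves `theorem XX (hYY : YY_stmt) ... : XX_stmt` (hypotheses: statements of `Defs.lean`,
`SpecL.lean` and EARLIER statements of this file) in the file `Pool/Agent/<seat>/PR/XX.lean`, namespace
`Pool.Agent.PR`, auxiliary lemmas with the prefix `XX_`.
-/

set_option autoImplicit false

namespace Pool.Agent.PR

open Matrix Polynomial

/-- `X³ - t X² + t' X - 1` -/
noncomputable def cub (t t' : ℤ) : ℤ[X] := X ^ 3 - C t * X ^ 2 + C t' * X - 1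

/-- TA. The characteristic polynomial of a 3 x 3 matrix of determinant one. (`M'` is the adjugate of `M`.) -/
def TA_stmt : Prop :=
  ∀ (F : Type) [Field F] (M M' : Matrix (Fin 3) (Fin 3) F) (t t' : ℤ), M * M' = 1 → M.det = 1 →
    M.trace = t → M'.trace = t' → M.charpoly = (cub t t').map (Int.castRingHom F)

/-- TB. An element of rank one. Proof. A reducible cubic over `ℚ` has a rational root, for `cub t t'` an integer
root dividing `1`: `ε = 1` or `-1`. `cub = (X - ε) g`, `g` integral. If `g ε ≠ 0` then `A = g(M)` has rank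
one: `V = ker (M - ε) ⊕ ker g(M)` with `dim ker (M - ε) = 1` (simple root), `g(M)` is zero on the second and
`g(ε) ≠ 0` on the first. If `g ε = 0`: `cub = (X - ε)² (X - δ)` with `ε² δ = 1`, so `δ = 1`; if `ε = -1`, `1` is a
simple root: use it. If `ε = 1`: `cub = (X - 1)³`, `N = M - 1` has `N³ = 0`, `N ≠ 0`; `rank N = 1`, or `N² ≠ 0` and
`rank N² = 1`. -/
def TB_stmt : Prop :=
  ∀ (F : Type) [Field F] [CharZero F] (M : Matrix (Fin 3) (Fin 3) F) (t t' : ℤ),
    M.charpoly = (cub t t').map (Int.castRingHom F) →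
    ¬ Irreducible ((cub t t').map (Int.castRingHom ℚ)) → M ≠ 1 →
    ∃ A ∈ Submodule.span ℚ (Set.range fun k : ℕ => M ^ k), A.rank = 1

/-- TC. The reducible case. Proof. `ρ l = qM (f p l)`; LINT for `w` and `w⁻¹`, LDET, TA: `ρ w` has the
characteristic polynomial `cub t t'`; if it is irreducible we are done. Otherwise (`ρ w ≠ 1` by LFAI) TB gives `A` in the `ℚ`-span of the
`ρ (w ^ k)`, of rank one; LEMB gives `R`; `H = range R` is profinitely dense (LPD) and contains `R w` of infinite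
order with characteristic polynomial `cub t t'` (the map `ℤ → ℚ_p` is injective), which is not irreducible over
`ℤ` (a monic factor over `ℚ` is integral: Gauss, or the root `ε`), and `R u`. `both (fun hD => abel_three hD ...)`
(`SLn/Abel.lean`, `SLn/Final.lean`, see `Results/MP_a2a22c_al/AbelianSL3.lean`) gives `H = ⊤`. -/
def TC_stmt : Prop :=
  ∀ (Λ : Type) [Group Λ], Group.FG Λ → QuotLe Λ (SLZ 3) → RF Λ →
    ∀ (f : Fam 3 Λ), (∀ q, (Set.range (f q)).Infinite) → ∀ (p : Nat.Primes) (w u : Λ), w * u = u * w →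
    (∀ k : ℕ, 0 < k → w ^ k ≠ 1) → (∀ k : ℕ, 0 < k → ∀ m : ℤ, u ^ k ≠ w ^ m) →
    Nonempty (Λ ≃* SLZ 3) ∨ ∃ t t' : ℤ, (qM (f p w)).charpoly = (cub t t').map (Int.castRingHom ℚ_[(p : ℕ)]) ∧
      Irreducible ((cub t t').map (Int.castRingHom ℚ))

/-- TD. The commutant. Proof. Let `K` be an algebraic closure of `F`, `d` the degree `n` of `g`. `g` is
separable, so over `K` there is a basis of eigenvectors of `M` with pairwise different eigenvalues; `B` commutes with
`M`, so it is diagonal in this basis; by interpolation `B = ∑_{i<n} a i • M ^ i` over `K`. Taking traces with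
`M ^ j`: `∑ a i * trace (M ^ (i + j)) = trace (B * M ^ j)`, a linear system with rational coefficients
(`trace (M ^ k)` is the sum of the `k`-th powers of the roots of `g`, rational) and rational right hand side whose matrix is
`Vᵀ V` for the Vandermonde matrix `V` of the eigenvalues, so it is invertible: the `a i` are rational. -/
def TD_stmt : Prop :=
  ∀ (n : ℕ) (F : Type) [Field F] [CharZero F] (M B : Matrix (Fin n) (Fin n) F) (g : ℚ[X]),
    Irreducible g → M.charpoly = g.map (algebraMap ℚ F) → B * M = M * B →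
    (∀ j : ℕ, ∃ r : ℚ, (B * M ^ j).trace = (r : F)) →
    ∃ q : ℚ[X], B = aeval M (q.map (algebraMap ℚ F))

/-- TE. Generators of a cubic field. Proof. `ℚ[X]/(g)` is a field of degree three which embeds into the
matrices (`X ↦ M`, `g(M) = 0`). The image `κ` of `q` is not in `ℚ` (otherwise `q(M)` is scalar), so `ℚ(κ)` is
everything (degree 1 or 3) and `X = s(κ)`. -/
def TE_stmt : Prop :=
  ∀ (F : Type) [Field F] [CharZero F] (M : Matrix (Fin 3) (Fin 3) F) (g : ℚ[X]),
    Irreducible g → M.charpoly = g.map (algebraMap ℚ F) → ∀ q : ℚ[X],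
    (∀ r : ℚ, aeval M (q.map (algebraMap ℚ F)) ≠ (r : F) • (1 : Matrix (Fin 3) (Fin 3) F)) →
    ∃ s : ℚ[X], M = aeval (aeval M (q.map (algebraMap ℚ F))) (s.map (algebraMap ℚ F))

/-- TF. Centralisers. Proof. If `c` commutes with `a`, then `ρ c` is a rational polynomial in `ρ a` (TD: the traces
of `ρ (c * a ^ j)` are integers). So the centraliser `C` of `a` is commutative. Let `1 ≠ c ∈ C`: `ρ c` is not `r • 1`
with rational `r` (determinant one: `r ^ 3 = 1`, `r = 1`), so (TE) `ρ a` is a rational polynomial in `ρ c`; an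
element commuting with `c` commutes with `a`. -/
def TF_stmt : Prop :=
  ∀ (F : Type) [Field F] [CharZero F] (Λ : Type) [Group Λ] (ρ : Λ →* Matrix (Fin 3) (Fin 3) F),
    Function.Injective ρ → (∀ l, (ρ l).det = 1) → (∀ l, ∃ t : ℤ, (ρ l).trace = (t : F)) →
    ∀ (a : Λ) (g : ℚ[X]), Irreducible g → (ρ a).charpoly = g.map (algebraMap ℚ F) →
    ∀ c ∈ Subgroup.centralizer {a}, c ≠ 1 → Subgroup.centralizer {c} = Subgroup.centralizer {a}

/-- TG. The normaliser. Proof. `S = ℚ[ρ a]` (the rational polynomials in `ρ a`) is a field isomorphic to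
`K = ℚ[X]/(g)` of degree three. For `x` in the normaliser of `C` (the centraliser of `a`): `x a x⁻¹ ∈ C`, so
`ρ x ρ a ρ x⁻¹ ∈ S` (TD) and conjugation by `ρ x` is an automorphism of `S`; it is trivial iff `x ∈ C`. So
`N(C)/C` embeds into the group of automorphisms of `K`, whose order divides `3`
(`IntermediateField.finrank_fixedField_eq_card`: `[K : K^G] = |G|` divides `3`). -/
def TG_stmt : Prop :=
  ∀ (F : Type) [Field F] [CharZero F] (Λ : Type) [Group Λ] (ρ : Λ →* Matrix (Fin 3) (Fin 3) F),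
    Function.Injective ρ → (∀ l, (ρ l).det = 1) → (∀ l, ∃ t : ℤ, (ρ l).trace = (t : F)) →
    ∀ (a : Λ) (g : ℚ[X]), Irreducible g → (ρ a).charpoly = g.map (algebraMap ℚ F) →
    ((Subgroup.centralizer {a}).subgroupOf (Subgroup.normalizer (Subgroup.centralizer {a} : Set Λ))).index = 1 ∨
    ((Subgroup.centralizer {a}).subgroupOf (Subgroup.normalizer (Subgroup.centralizer {a} : Set Λ))).index = 3

/-- TU. The unit theorem in the form needed. Proof. Dirichlet: `(𝓞 K)ˣ / torsion` is free abelian of rank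
`r₁ + r₂ - 1 ≤ 2` (`r₁ + 2 r₂ = 3`). `C` embeds, so it is free abelian of rank `≤ 2`, and it contains a free abelian
group of rank `2`. -/
def TU_stmt : Prop :=
  ∀ (K : Type) [Field K] [NumberField K], Module.finrank ℚ K = 3 → ∀ (C : Type) [CommGroup C]
    (θ : C →* (NumberField.RingOfIntegers K)ˣ), (∀ c, θ c ∈ NumberField.Units.torsion K → c = 1) →
    ∀ a b : C, (∀ i j : ℤ, a ^ i * b ^ j = 1 → i = 0 ∧ j = 0) →
    Nonempty (C ≃* Multiplicative (Fin 2 → ℤ))

/-- TV. The centraliser is free abelian of rank two. Proof. `K = ℚ[X]/(g)` (degree three). For `c ∈ C`,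
`ρ c = q(ρ a)` (TD), `κ_c` = the class of `q` in `K` (unique, since `K` embeds in the matrices); `c ↦ κ_c` is a homomorphism to
`Kˣ`; `κ_c` is a root of the characteristic polynomial of `ρ c`, which is `cub t t'` (TA), so it is an algebraic
integer, and so is its inverse. If `κ_c` is a root of unity: `K` has odd degree, hence a real embedding, so `κ_c = ± 1`,
`ρ c = ± 1`, and `det = 1` gives `ρ c = 1`, `c = 1`. TU. -/
def TV_stmt : Prop :=
  ∀ (F : Type) [Field F] [CharZero F] (Λ : Type) [Group Λ] (ρ : Λ →* Matrix (Fin 3) (Fin 3) F),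
    Function.Injective ρ → (∀ l, (ρ l).det = 1) → (∀ l, ∃ t : ℤ, (ρ l).trace = (t : F)) →
    ∀ (a : Λ) (g : ℚ[X]), Irreducible g → (ρ a).charpoly = g.map (algebraMap ℚ F) →
    ∀ b : Λ, a * b = b * a → (∀ i j : ℤ, a ^ i * b ^ j = 1 → i = 0 ∧ j = 0) →
    Nonempty (Subgroup.centralizer {a} ≃* Multiplicative (Fin 2 → ℤ))

/-- TH. The theorem for `n = 3`. Proof. LRHO, LFAI, LDET, LINT, TC (for `w = a`, `u = b`), then TF, TG, TV with
`ρ l = qM (f p l)`, `g = cub t t'`; the centraliser of `{a, b}` is the centraliser of `a` (`C(a)` is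
commutative by TF). Third clause: `x c x⁻¹ = c' ∈ C`: for `d ∈ C`, `x d x⁻¹` commutes with `c'`, so it is in
`C(c') = C`; likewise `x⁻¹ d x`. -/
def TH_stmt : Prop :=
  ∀ (Λ : Type) [Group Λ], Group.FG Λ → RF Λ → QuotLe Λ (SLZ 3) → QuotLe (SLZ 3) Λ →
    ¬ Nonempty (Λ ≃* SLZ 3) → ∀ a b : Λ, a * b = b * a →
    (∀ i j : ℤ, a ^ i * b ^ j = 1 → i = 0 ∧ j = 0) → ∀ C : Subgroup Λ, C = Subgroup.centralizer {a, b} →
    Nonempty (C ≃* Multiplicative (Fin 2 → ℤ)) ∧
    (∀ c ∈ C, c ≠ 1 → Subgroup.centralizer {c} = C) ∧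
    (∀ x : Λ, (∃ c ∈ C, c ≠ 1 ∧ x * c * x⁻¹ ∈ C) → x ∈ Subgroup.normalizer (C : Set Λ)) ∧
    ((C.subgroupOf (Subgroup.normalizer (C : Set Λ))).index = 1 ∨ (C.subgroupOf (Subgroup.normalizer (C : Set Λ))).index = 3)

end Pool.Agent.PR
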