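import Pool.Agent.helper48.PR.SpecT

/-! Project pr, module TA. -/

set_option autoImplicit false

namespace Pool.Agent.PR

open Matrix Polynomial

theorem TA : TA_stmt := by
  intro F _ M M' t t' hMM hdet ht ht'
  have hM' : M' = M.adjugate := by
    have h1 : M.adjugate * M = 1 := by rw [Matrix.adjugate_mul, hdet, one_smul]
    calc M' = (M.adjugate * M) * M' := by rw [h1, one_mul]
      _ = M.adjugate := by rw [mul_assoc, hMM, mul_one]
  have hc : M.charpoly = X ^ 3 - C M.trace * X ^ 2 + C M.adjugate.trace * X - C M.det := by
    rw [Matrix.charpoly, Matrix.charmatrix, Matrix.det_fin_three, Matrix.adjugate_fin_three,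
      Matrix.det_fin_three, Matrix.trace_fin_three, Matrix.trace_fin_three]
    simp [Matrix.scalar_apply, Matrix.diagonal]
    ring
  rw [hc, ← hM', ht, ht', hdet, cub]
  simp
end Pool.Agent.PR
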