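import Pool.Agent.helper48.PR.AsmL
import Pool.Agent.helper48.PR.TA
import Pool.Agent.helper84.PR.TB
import Pool.Agent.helper84.PR.TC
import Pool.Agent.helper2.PR.TD
import Pool.Agent.helper95.PR.TE
import Pool.Agent.helper95.PR.TF
import Pool.Agent.helper65.PR.TG
import Pool.Agent.helper87.PR.TU
import Pool.Agent.helper45.PR.TV
import Pool.Agent.helper50.PR.TH

/-!
Project pr: assembly of part T (`n = 3`).
-/

namespace Pool.Agent.PR

theorem tTC : TC_stmt := TC TA TB tLINT tLDET tLFAI tLEMB tLPD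

theorem tTH : TH_stmt := TH tLRHO tLFAI tLDET tLINT tTC (TF TD TE) (TG TD) (TV TA TD TU)

end Pool.Agent.PR
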