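import Pool.Agent.helper48.PR.AsmL
import Pool.Agent.helper12.PR.HA
import Pool.Agent.helper45.PR.HB
import Pool.Agent.helper41.PR.HD
import Pool.Agent.helper89.PR.HE
import Pool.Agent.helper41.PR.HF
import Pool.Agent.helper41.PR.HG
import Pool.Agent.helper41.PR.HK
import Pool.Agent.helper45.PR.HL
import Pool.Agent.helper25.PR.HM
import Pool.Agent.helper57.PR.HI
import Pool.Agent.helper45.PR.HJ
import Pool.Agent.helper38.PR.HT
import Pool.Agent.helper93.PR.HS

/-!
Project pr: assembly of part H.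
-/

namespace Pool.Agent.PR

theorem tHI : HI_stmt := HI (HG (HF HD HE)) (HL HK HD HE) (HM HK HD HE)

theorem tHJ : HJ_stmt := HJ C1 (HB HA C2 (C3 C2)) tHI

theorem tHT : HT_stmt := HT tLRHO tLFAI tHJ tLTR

end Pool.Agent.PR
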