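import Pool.Agent.helper48.PR.Base

/-!
# Project pr (MP_a2a22c_al), part C: representations of `SL(n, ℤ)` of dimension `n`

A module XX proves `theorem XX (hYY : YY_stmt) ... : XX_stmt` (any EARLIER statements `YY_stmt` of this
file may be used as hypotheses) in the file `Pool/Agent/<seat>/PR/XX.lean`, namespace
`Pool.Agent.PR`, auxiliary lemmas with the prefix `XX_`.
Useful: `Base.lean` (`stdM_mul`, `el_commutator`, `el_comm`, `el_gen`, `hom_ext`, ...),
`Pool/Agent/helper48/SLn/Index.lean` (`NQ`, `Cong`, `NQ_finiteIndex`), Mathlib: `IsNilpotent.exp`,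
`IsNilpotent.exp_add_of_commute`, `Module.End.eigenvectors_linearIndependent'`,
`Module.End.exists_eigenvalue`.
-/

set_option autoImplicit false

namespace Pool.Agent.PR

open Matrix

/-- Relations of the root vectors of `sl_n`. -/
structure IsFam {n : ℕ} {F : Type} [Field F] (M : Fin n → Fin n → Matrix (Fin n) (Fin n) F) :
    Prop where
  r1 : ∀ i j l, i ≠ j → j ≠ l → i ≠ l → M i j * M j l - M j l * M i j = M i l
  r2 : ∀ i j l m, i ≠ j → l ≠ m → j ≠ l → i ≠ m → M i j * M l m = M l m * M i j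

/-- The Cartan elements. -/
def hh {n : ℕ} {F : Type} [Field F] (M : Fin n → Fin n → Matrix (Fin n) (Fin n) F) (i j : Fin n) :
    Matrix (Fin n) (Fin n) F := M i j * M j i - M j i * M i j

/-- `w` is the signed permutation matrix `w e_j = s j • e_(σ j)`. -/
def IsSP {n : ℕ} (w : SLZ n) (σ : Equiv.Perm (Fin n)) (s : Fin n → ℤ) : Prop :=
  (∀ i, s i = 1 ∨ s i = -1) ∧
    ∀ a j, (w : Matrix (Fin n) (Fin n) ℤ) a j = if a = σ j then s j else 0

/-- C1. Central commutators have eigenvalues roots of unity.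
Proof. Over an algebraic closure let `λ` be an eigenvalue of `z`, `W` the generalised eigenspace,
`1 ≤ d = dim W ≤ n`. `x` and `y` commute with `z`, so they preserve `W` (and `x'`, `y'` too), so
`det (z | W) = 1`; but `det (z | W) = λ ^ d`. So `λ ^ (n !) = 1` for every eigenvalue, all eigenvalues
of `z ^ (n !) - 1` are `0`. (Other proof: the eigenvalues of `z` on the `F`-space `V`; induct on the
dimension, `V = W ⊕ W'` with `W'` the range of `(z - λ) ^ n`.) -/
def C1_stmt : Prop :=
  ∀ (n : ℕ) (F : Type) [Field F] (x y z x' y' : Matrix (Fin n) (Fin n) F), x * x' = 1 → y * y' = 1 →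
    z = x * y * x' * y' → z * x = x * z → z * y = y * z → IsNilpotent (z ^ n.factorial - 1)

/-- C2. Logarithm of unipotent matrices. (`lg U = ∑_{1 ≤ k < n} (-1)^(k+1) (U - 1)^k / k` for `n ≥ 1`; the
identities `exp (log (1 + X)) = 1 + X` and `log (exp X) = X` modulo `X ^ n`. Alternative without power
series identities: existence and uniqueness of `N` by induction along the powers of the ideal: if
`exp N = U` modulo `(U - 1)^k` in the commutative algebra `F[U]`, correct `N` by an element of
`(U - 1)^k F[U]`; uniqueness: if `exp N = exp N'` with `N`, `N'` nilpotent: `N` commutes with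
`exp N = exp N'`, and `N'` is a polynomial in `exp N' - 1` by the first part, so `N`, `N'` commute and
`exp (N - N') = 1`, so `(N - N') * unit = 0`.) -/
def C2_stmt : Prop :=
  ∀ (n : ℕ) (F : Type) [Field F] [CharZero F],
    ∃ lg : Matrix (Fin n) (Fin n) F → Matrix (Fin n) (Fin n) F,
      (∀ U, IsNilpotent (U - 1) → IsNilpotent (lg U) ∧ IsNilpotent.exp (lg U) = U ∧
        ∀ X, X * U = U * X → X * lg U = lg U * X) ∧
      ∀ N, IsNilpotent N → lg (IsNilpotent.exp N) = N

/-- C3. Group commutator to Lie bracket. Proof. `exp A * B * exp (-A)` is nilpotent with exponential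
`exp A * exp B * exp (-A) = exp C * exp B = exp (C + B)`, so by C2 (uniqueness)
`exp A * B * exp (-A) = B + C`. By induction `exp (k A) * B * exp (-k A) = B + k C` for all natural
`k`. The left side is a polynomial in `k` (finite sum `∑_{i,j} (k^(i+j) / (i! j!)) A^i B (-A)^j`) whose
coefficient of `k` is `A * B - B * A`; compare (an entrywise polynomial identity for all natural `k`,
characteristic zero). -/
def C3_stmt : Prop :=
  ∀ (n : ℕ) (F : Type) [Field F] [CharZero F] (A B C : Matrix (Fin n) (Fin n) F), IsNilpotent A →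
    IsNilpotent B → IsNilpotent C → C * A = A * C → C * B = B * C →
    IsNilpotent.exp A * IsNilpotent.exp B = IsNilpotent.exp C * IsNilpotent.exp B * IsNilpotent.exp A →
    A * B - B * A = C

/-- C4a. Powers of elementary matrices are unipotent in any representation of dimension `n`.
(`el i j 1` is the commutator of `el i l 1` and `el l j 1`, `l ≠ i, j`, and commutes with both; C1;
`(el i j 1) ^ (n !) = el i j (n !)`.) -/
def C4a_stmt : Prop :=
  ∀ (n : ℕ), 3 ≤ n → ∀ (F : Type) [Field F] [CharZero F] (r : SLZ n →* Matrix (Fin n) (Fin n) F)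
    (i j : Fin n) (h : i ≠ j), IsNilpotent (r (el i j h (n.factorial : ℤ)) - 1)

/-- C4b. The root vectors. Put `K = n !`, `M i j = K⁻¹ • lg (r (el i j K))` (C2, C4a). `r2`: the
elements commute, so do the logarithms. `r1`: `el i j K`, `el j l K` have the commutator
`el i l (K * K) = (el i l K) ^ K` with `r (...) = exp (K • K • M i l)`, so by C3
`[K M i j, K M j l] = K² M i l`. The uniqueness clause: the `M i j` are determined. -/
def C4b_stmt : Prop :=
  ∀ (n : ℕ), 3 ≤ n → ∀ (F : Type) [Field F] [CharZero F] (r : SLZ n →* Matrix (Fin n) (Fin n) F),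
    ∃ M : Fin n → Fin n → Matrix (Fin n) (Fin n) F, IsFam M ∧ ∀ (i j : Fin n) (h : i ≠ j),
      IsNilpotent (M i j) ∧
      r (el i j h (n.factorial : ℤ)) = IsNilpotent.exp ((n.factorial : F) • M i j)

/-- C4c. Conjugation of the root vectors by `r (el i j 1)`. Both sides: `K ·` (conjugate of `M l m` by
`r (el i j 1)`) is the logarithm of `r (el i j 1 * el l m K * el i j (-1))` (uniqueness in C2).
Cases: `j ≠ l`, `i ≠ m`: the elements commute and `M i j`, `M l m` commute. `j = l`, `i ≠ m`:
`el i j 1 * el j m K * el i j (-1) = el i m K * el j m K` (commuting factors), so the conjugate is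
`M j m + M i m`, and `exp (M i j) * M j m * exp (- M i j) = M j m + [M i j, M j m] = M j m + M i m` since
`M i j` commutes with `M i m`. `i = m`, `j ≠ l`: the same with `M l i - M l j`. `(l, m) = (j, i)`:
`M j i = [M j p, M p i]` with a third index `p`, both sides are values of algebra automorphisms. -/
def C4c_stmt : Prop :=
  ∀ (n : ℕ), 3 ≤ n → ∀ (F : Type) [Field F] [CharZero F] (r : SLZ n →* Matrix (Fin n) (Fin n) F)
    (M : Fin n → Fin n → Matrix (Fin n) (Fin n) F), IsFam M →
    (∀ (i j : Fin n) (h : i ≠ j), IsNilpotent (M i j) ∧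
      r (el i j h (n.factorial : ℤ)) = IsNilpotent.exp ((n.factorial : F) • M i j)) →
    ∀ (i j : Fin n) (h : i ≠ j) (l m : Fin n), l ≠ m →
      r (el i j h 1) * M l m =
        IsNilpotent.exp (M i j) * M l m * IsNilpotent.exp (-M i j) * r (el i j h 1)

/-- C4d. Conjugation of the root vectors by signed permutations: `w * el i j a * w⁻¹` is
`el (σ i) (σ j) (s i * s j * a)` (`w` is orthogonal), and uniqueness of the logarithm. Second part: every
permutation is the permutation of some `w` in `SL(n, ℤ)` (choose signs, determinant `1`). -/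
def C4d_stmt : Prop :=
  (∀ (n : ℕ), 3 ≤ n → ∀ (F : Type) [Field F] [CharZero F] (r : SLZ n →* Matrix (Fin n) (Fin n) F)
    (M : Fin n → Fin n → Matrix (Fin n) (Fin n) F), IsFam M →
    (∀ (i j : Fin n) (h : i ≠ j), IsNilpotent (M i j) ∧
      r (el i j h (n.factorial : ℤ)) = IsNilpotent.exp ((n.factorial : F) • M i j)) →
    ∀ (w : SLZ n) (σ : Equiv.Perm (Fin n)) (s : Fin n → ℤ), IsSP w σ s → ∀ i j : Fin n, i ≠ j →
      r w * M i j = (((s i * s j : ℤ) : F)) • (M (σ i) (σ j) * r w)) ∧
  (∀ (n : ℕ), 1 ≤ n → ∀ σ : Equiv.Perm (Fin n), ∃ (w : SLZ n) (s : Fin n → ℤ), IsSP w σ s)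

/-- C5. Relations of the Cartan elements. With brackets, Jacobi and a third index `p`:
(1) `M i j = [M i p, M p j]`, `[H i j, M i p] = M i p`, `[H i j, M p j] = M p j`.
(2) e.g. `[[M i j, M j i], M i l] = [M i j, [M j i, M i l]] - [M j i, [M i j, M i l]] = [M i j, M j l]`.
(4) from (1)-(3), `[H, [M k l, M l k]] = [[H, M k l], M l k] + [M k l, [H, M l k]]`.
(5) `M i l = [M i j, M j l]`, so `H i l = [[M i j, M j l], M l i] = [M i j, [M j l, M l i]] -
[M j l, [M i j, M l i]] = [M i j, M j i] + [M j l, M l j]`. -/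
def C5_stmt : Prop :=
  ∀ (n : ℕ), 3 ≤ n → ∀ (F : Type) [Field F] (M : Fin n → Fin n → Matrix (Fin n) (Fin n) F), IsFam M →
    (∀ i j, i ≠ j → hh M i j * M i j - M i j * hh M i j = 2 • M i j) ∧
    (∀ i j l, i ≠ j → j ≠ l → i ≠ l →
      hh M i j * M i l - M i l * hh M i j = M i l ∧ hh M i j * M j l - M j l * hh M i j = -M j l ∧
      hh M i j * M l i - M l i * hh M i j = -M l i ∧ hh M i j * M l j - M l j * hh M i j = M l j) ∧
    (∀ i j k l, i ≠ j → k ≠ l → k ≠ i → k ≠ j → l ≠ i → l ≠ j → hh M i j * M k l = M k l * hh M i j) ∧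
    (∀ i j k l, i ≠ j → k ≠ l → hh M i j * hh M k l = hh M k l * hh M i j) ∧
    (∀ i j l, i ≠ j → j ≠ l → i ≠ l → hh M i j + hh M j l = hh M i l) ∧
    (∀ i j, hh M j i = -hh M i j)

/-- C6. A weight vector of nonzero weight. Proof. Let `M p q ≠ 0`, `H = hh M p q`. `H * M p q =
M p q * (H + 2)`, so `H ^ k * M p q = M p q * (H + 2) ^ k`; if `H` were nilpotent, `H + 2` would be
invertible and `M p q = 0`. So `H` has an eigenvalue `μ ≠ 0`; the eigenspace is preserved by all
`hh M i j` (C5 (4)), a commuting family, which has a common eigenvector `v` there (`F` algebraically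
closed), `hh M i j *ᵥ v = h i j • v`. By C5 (5) `h i j + h j l = h i l`, `h j i = - h i j`, so with a fixed
index `0` and `a i = h i 0`, `a 0 = 0` we get `h i j = a i - a j`; `a p - a q = μ ≠ 0`. -/
def C6_stmt : Prop :=
  ∀ (n : ℕ), 3 ≤ n → ∀ (F : Type) [Field F] [CharZero F] [IsAlgClosed F]
    (M : Fin n → Fin n → Matrix (Fin n) (Fin n) F), IsFam M → (∃ p q, p ≠ q ∧ M p q ≠ 0) →
    ∃ (v : Fin n → F) (a : Fin n → F), v ≠ 0 ∧ (∃ p q, a p ≠ a q) ∧
      ∀ i j, i ≠ j → hh M i j *ᵥ v = (a i - a j) • v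

/-- C7. Orbits of vectors under permutations. (If `a ∘ σ - a ∘ τ` is a constant `c`, sum over `i`:
`n c = 0`, so `a ∘ σ = a ∘ τ`. Let `k` be the size of a value class `S` of `a`. If `2 ≤ k ≤ n - 2` (so
`n ≥ 4`) there are `n.choose k ≥ n.choose 2 > n` sets `σ⁻¹ S`. If all value classes have size `1` or `n - 1`:
either there is one of size `n - 1` and the first alternative holds, or `a` is injective and
`n ! > n`.) -/
def C7_stmt : Prop :=
  ∀ (n : ℕ), 3 ≤ n → ∀ (F : Type) [Field F] [CharZero F] (a : Fin n → F), (∃ p q, a p ≠ a q) →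
    (∃ (i₀ : Fin n) (x y : F), x ≠ y ∧ ∀ i, a i = if i = i₀ then x else y) ∨
    ∃ T : Finset (Equiv.Perm (Fin n)), n < T.card ∧ ∀ σ ∈ T, ∀ τ ∈ T,
      (∃ c, ∀ i, a (σ i) - a (τ i) = c) → σ = τ

/-- C8a. Joint eigenvectors with pairwise different systems of eigenvalues are linearly
independent. (Induction on the size of a minimal relation, apply `H t` for a `t` which separates two
of its members; or a generic linear combination.) -/
def C8a_stmt : Prop :=
  ∀ (n : ℕ) (F : Type) [Field F] (ι κ : Type) (H : ι → Matrix (Fin n) (Fin n) F) (v : κ → Fin n → F)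
    (μ : κ → ι → F), (∀ k, v k ≠ 0) → (∀ k t, H t *ᵥ v k = μ k t • v k) →
    (∀ k l, k ≠ l → ∃ t, μ k t ≠ μ l t) → LinearIndependent F v

/-- C8. A basis of weight vectors. Proof. Let `R σ = w`. Then `hh M i j *ᵥ (w *ᵥ v) =
(a (σ⁻¹ i) - a (σ⁻¹ j)) • (w *ᵥ v)`. In the second case of C7 (use the inverses of the permutations in
`T`) there would be more than `n` joint eigenvectors with different systems of eigenvalues,
contradiction to C8a. So `a i = x` for `i = i₀` and `y` otherwise; `c = x - y`,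
`b l = R (swap i₀ l) v` has the weight with `x` at `l` and `y` elsewhere. (`2 c ≠ 0`: they are
different.) -/
def C8_stmt : Prop :=
  ∀ (n : ℕ), 3 ≤ n → ∀ (F : Type) [Field F] [CharZero F] (M : Fin n → Fin n → Matrix (Fin n) (Fin n) F),
    IsFam M →
    (∀ σ : Equiv.Perm (Fin n), ∃ w w' : Matrix (Fin n) (Fin n) F, w * w' = 1 ∧ w' * w = 1 ∧
      ∀ i j, i ≠ j → w * hh M i j = hh M (σ i) (σ j) * w) →
    ∀ (v : Fin n → F) (a : Fin n → F), v ≠ 0 → (∃ p q, a p ≠ a q) →
      (∀ i j, i ≠ j → hh M i j *ᵥ v = (a i - a j) • v) →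
    ∃ (b : Fin n → Fin n → F) (c : F), LinearIndependent F b ∧ c ≠ 0 ∧
      ∀ i j, i ≠ j → ∀ l, hh M i j *ᵥ b l = ((if l = i then c else 0) - (if l = j then c else 0)) • b l

/-- C9a. Shape of the root vectors in the basis of weight vectors. Proof. By C5 (1)-(3) and the
eigenvalue equations `M i j *ᵥ b p` is zero or a joint eigenvector; its system of eigenvalues is that
of the vector `c ε_p + ε_i - ε_j` (value on `hh k l`: difference of the coordinates `k`, `l`). Writing it in the
basis `b` it is a multiple of some `b q` with `c ε_p + ε_i - ε_j - c ε_q` constant (all coordinates equal).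
For `n ≥ 3` and characteristic zero the only solutions (`i ≠ j`) are: `p = j`, `q = i`, `c = 1`, and
`p = i`, `q = j`, `c = -1` (for `n ≥ 4` a coordinate outside `{i, j, p}` or `{i, j, q}` helps; `n = 3` by
cases). Some `M p q ≠ 0`, so `c = 1` or `c = -1`. -/
def C9a_stmt : Prop :=
  ∀ (n : ℕ), 3 ≤ n → ∀ (F : Type) [Field F] [CharZero F] (M : Fin n → Fin n → Matrix (Fin n) (Fin n) F),
    IsFam M → (∃ p q, p ≠ q ∧ M p q ≠ 0) → ∀ (b : Fin n → Fin n → F) (c : F),
    LinearIndependent F b → c ≠ 0 →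
    (∀ i j, i ≠ j → ∀ l, hh M i j *ᵥ b l =
      ((if l = i then c else 0) - (if l = j then c else 0)) • b l) →
    ∃ m : Fin n → Fin n → F,
      (c = 1 ∧ ∀ i j, i ≠ j → ∀ l, M i j *ᵥ b l = if l = j then m i j • b i else 0) ∨
      (c = -1 ∧ ∀ i j, i ≠ j → ∀ l, M i j *ᵥ b l = if l = i then m i j • b j else 0)

/-- C9. Matrix units. Proof. Case `c = 1`: `hh M i j *ᵥ b i = b i` gives `m i j * m j i = 1`, `r1` on `b l`
gives `m i j * m j l = m i l`. With a fixed index `0`, `m' i = m i 0` (`m' 0 = 1`) let the columns of `x` be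
`m' i • b i`; then `M i j *ᵥ x_j = x_i`, `M i j *ᵥ x_l = 0` for `l ≠ j`. Case `c = -1`:
`m i j * m j i = 1`, `m i l = - m i j * m j l`; columns `μ j • b j` with `μ j = - m 0 j`, `μ 0 = 1`;
then `M i j *ᵥ x_i = - x_j`. -/
def C9_stmt : Prop :=
  ∀ (n : ℕ), 3 ≤ n → ∀ (F : Type) [Field F] [CharZero F] (M : Fin n → Fin n → Matrix (Fin n) (Fin n) F),
    IsFam M → (∃ p q, p ≠ q ∧ M p q ≠ 0) → ∀ (b : Fin n → Fin n → F) (c : F),
    LinearIndependent F b → c ≠ 0 →
    (∀ i j, i ≠ j → ∀ l, hh M i j *ᵥ b l =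
      ((if l = i then c else 0) - (if l = j then c else 0)) • b l) →
    ∃ x y : Matrix (Fin n) (Fin n) F, x * y = 1 ∧ y * x = 1 ∧
      ((∀ i j, i ≠ j → M i j = x * Matrix.single i j 1 * y) ∨
       (∀ i j, i ≠ j → M i j = -(x * Matrix.single j i 1 * y)))

/-- C10. `r (el i j 1) = 1 + M i j`. Proof. `M i j * M i j = 0`, so `exp (M i j) = 1 + M i j`. Let
`s i j = (1 - M i j) * r (el i j 1)`; it commutes with all `M l m` (hypothesis), so `y * s i j * x` commutes
with all matrix units, `s i j = λ i j • 1`, `λ i j ≠ 0`. So `r (el i j 1) = λ i j • (1 + M i j)`. As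
`el i l 1` is the commutator of `el i j 1` and `el j l 1`, `r (el i l 1) * r (el j l 1) * r (el i j 1) =
r (el i j 1) * r (el j l 1)`; the scalars `λ i j λ j l` cancel, and
`(1 + M i j) (1 + M j l) = (1 + M i l) (1 + M j l) (1 + M i j)` by direct computation with
matrix units in both cases. -/
def C10_stmt : Prop :=
  ∀ (n : ℕ), 3 ≤ n → ∀ (F : Type) [Field F] [CharZero F] (r : SLZ n →* Matrix (Fin n) (Fin n) F)
    (M : Fin n → Fin n → Matrix (Fin n) (Fin n) F) (x y : Matrix (Fin n) (Fin n) F), x * y = 1 →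
    y * x = 1 →
    ((∀ i j, i ≠ j → M i j = x * Matrix.single i j 1 * y) ∨
      (∀ i j, i ≠ j → M i j = -(x * Matrix.single j i 1 * y))) →
    (∀ (i j : Fin n) (h : i ≠ j) (l m : Fin n), l ≠ m → r (el i j h 1) * M l m =
      IsNilpotent.exp (M i j) * M l m * IsNilpotent.exp (-M i j) * r (el i j h 1)) →
    ∀ (i j : Fin n) (h : i ≠ j), r (el i j h 1) = 1 + M i j

/-- FIN. A normal subgroup which contains all `el i j q` has finite index. (It contains `NQ (Fin n) q`:
a generator `tv x (q • φ)` with `φ ⬝ᵥ x = 0`: `x = 0` trivial; `x = d • x'`, `x'` primitive,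
`tv x (q • φ) = tv x' (q • d • φ)`; some `g` in `SL(n, ℤ)` maps `e_0` to `x'`, the conjugate
`tv e_0 (q • ψ)`, `ψ 0 = 0`, is a product of the `el 0 j (q ψ_j)`, powers of the `el 0 j q`. Then
`NQ_finiteIndex`. See `euclid` in `SLn/Gen.lean` for `g`.) -/
def FIN_stmt : Prop :=
  ∀ (n : ℕ), 3 ≤ n → ∀ (q : ℕ), q ≠ 0 → ∀ N : Subgroup (SLZ n), N.Normal →
    (∀ (i j : Fin n) (h : i ≠ j), el i j h (q : ℤ) ∈ N) →
    Pool.Agent.H48SL.NQ (Fin n) (q : ℤ) ≤ N ∧ N.FiniteIndex

/-- C11. The classification over an algebraically closed field. Proof. Take `M` from C4b. If all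
`M i j = 0` (`i ≠ j`), then `r (el i j (n !)) = 1`, the kernel of `r` has finite index by FIN, so the range
of `r` is finite. Otherwise C6 (vector), C4d (hypothesis of C8: from `r w * M i j = ± M (σ i) (σ j) * r w`
with the same sign for `(i, j)` and `(j, i)`), C8, C9, C4c, C10: `r (el i j 1) = x * (1 + E_ij) * y` or
`x * (1 - E_ji) * y`, which is `x * stdM (el i j 1) * y` or `x * duM (el i j 1) * y`; `hom_ext`. -/
def C11_stmt : Prop :=
  ∀ (n : ℕ), 3 ≤ n → ∀ (F : Type) [Field F] [CharZero F] [IsAlgClosed F]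
    (r : SLZ n →* Matrix (Fin n) (Fin n) F), (Set.range r).Infinite →
    ∃ x y : Matrix (Fin n) (Fin n) F, x * y = 1 ∧ y * x = 1 ∧
      ((∀ γ, r γ = x * stdM F γ * y) ∨ (∀ γ, r γ = x * duM F γ * y))

/-- C12. Descent of matrix units. Given `f i j` (`i ≠ j`) over `F` which over a larger field `F'` are
`x E_ij y`. Put `f i i = f i j * f j i`; over `F'` this is `x E_ii y`; the relations of matrix units
hold over `F'`, hence over `F`. Choose `v` with `f 0 0 *ᵥ v ≠ 0`, let the columns of the new `x` be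
`f i 0 *ᵥ v`: they are linearly independent (apply `f 0 i`), and `f i j` maps column `j` to column `i` and
kills the others. -/
def C12_stmt : Prop :=
  ∀ (n : ℕ), 3 ≤ n → ∀ (F F' : Type) [Field F] [Field F'] [Algebra F F']
    (f : Fin n → Fin n → Matrix (Fin n) (Fin n) F) (x y : Matrix (Fin n) (Fin n) F'), x * y = 1 →
    y * x = 1 → (∀ i j, i ≠ j → (f i j).map (algebraMap F F') = x * Matrix.single i j 1 * y) →
    ∃ x' y' : Matrix (Fin n) (Fin n) F, x' * y' = 1 ∧ y' * x' = 1 ∧
      ∀ i j, i ≠ j → f i j = x' * Matrix.single i j 1 * y'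

/-- C13. The classification `CL_stmt`. (C11 for `r` over `AlgebraicClosure F`; C12 for
`f i j = r (el i j 1) - 1`, in the dual case for `f j i = 1 - r (el i j 1)`; `hom_ext`.) -/
def C13_stmt : Prop := CL_stmt

end Pool.Agent.PR
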