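import Pool.Agent.helper33.PR.C1
import Pool.Agent.helper75.PR.C2
import Pool.Agent.helper93.PR.C3
import Pool.Agent.helper98.PR.C4a
import Pool.Agent.helper96.PR.C4b
import Pool.Agent.helper16.PR.C4c
import Pool.Agent.helper93.PR.C4d
import Pool.Agent.helper76.PR.C5
import Pool.Agent.helper76.PR.C6
import Pool.Agent.helper62.PR.C7
import Pool.Agent.helper62.PR.C8a
import Pool.Agent.helper29.PR.C8
import Pool.Agent.helper13.PR.C9a
import Pool.Agent.helper28.PR.C9
import Pool.Agent.helper25.PR.C10
import Pool.Agent.helper93.PR.FIN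
import Pool.Agent.helper61.PR.C11
import Pool.Agent.helper60.PR.C12
import Pool.Agent.helper27.PR.C13

/-!
Project pr: assembly of part C: the classification `CL_stmt`.
-/

namespace Pool.Agent.PR

theorem tCL : CL_stmt :=
  C13 (C11 (C4b C2 (C3 C2) (C4a C1)) (C4c C2) (C4d C2) (C6 C5) (C8 C7 C8a) (C9 (C9a C5)) C10 FIN) C12

end Pool.Agent.PR
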