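import Pool.Agent.helper48.PR.Defs
import Pool.Agent.helper24.PR.M_TRA
import Pool.Agent.helper53.PR.M_TRB
import Pool.Agent.helper53.PR.M_TRC
import Pool.Agent.helper93.PR.M_NQ
import Pool.Agent.helper97.PR.M_CEN
import Pool.Agent.helper22.PR.M_WD
import Pool.Agent.helper76.PR.M_MB
import Pool.Agent.helper76.PR.M_MA
import Pool.Agent.helper67.PR.M_COR
import Pool.Agent.helper76.PR.M_ALL
import Pool.Agent.helper79.PR.M_FIN

/-!
Project pr: assembly of part M: the congruence subgroup property `CSP_stmt`.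
-/

namespace Pool.Agent.PR

theorem tM_ALL : M_ALL_stmt :=
  M_ALL M_NQ (M_COR (M_CEN M_NQ) (M_WD (M_CEN M_NQ)) (M_MB (M_CEN M_NQ) (M_WD (M_CEN M_NQ)))
    (M_MA (M_CEN M_NQ) (M_WD (M_CEN M_NQ))) (M_TRC M_TRA (M_TRB M_TRA)))

theorem tCSP : CSP_stmt := by
  intro n hn N _ hfi
  obtain ⟨m, hm, h⟩ := M_FIN tM_ALL n hn N hfi
  exact ⟨m, by omega, h⟩

end Pool.Agent.PR
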